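import Pool.Agent.Lib.MP_4b2155_pr.Q.Cc

set_option autoImplicit false

namespace Pool.Agent.Lib.MP_4b2155_pr.Q

open Set

variable {α : Type} {k : ℕ} {G G' : SimpleGraph α} {V W : Fin k → Set α} {u v w : α}

structure St (G : SimpleGraph α) (V : Fin k → Set α) : Prop where
  ind : ∀ i, ∀ u ∈ V i, ∀ v ∈ V i, ¬ G.Adj u v
  dis : ∀ i j, ∀ u ∈ V i, u ∈ V j → i = j

structure Bil (G : SimpleGraph α) (V : Fin k → Set α) : Prop extends St G V where
  ne : ∀ i, (V i).Nonempty
  con : ∀ i j, i ≠ j → Con G (V i ∪ V j)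

def Col (G : SimpleGraph α) (V : Fin k → Set α) : Prop := Bil G V ∧ 4 ≤ (⋃ i, V i).ncard

theorem St.sub (h : St G V) (hW : ∀ i, W i ⊆ V i) (hG : G' ≤ G) : St G' W :=
  ⟨fun i u hu v hv a => h.ind i u (hW i hu) v (hW i hv) (hG a),
    fun i j u hu hv => h.dis i j u (hW i hu) (hW j hv)⟩

theorem bil_iff : Bilinked G V ↔ Bil G V := by
  constructor
  · intro h
    refine ⟨⟨fun i u hu v hv a => (h.1 i).2 hu hv a.ne a, fun i j u hu hv => ?_⟩,
      fun i => (h.1 i).1, fun i j hij => (con_iff.1 (h.2 i j hij).2).2⟩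
    by_contra hij
    exact disjoint_left.1 (h.2 i j hij).1 hu hv
  · intro h
    exact ⟨fun i => ⟨h.ne i, fun u hu v hv _ => h.ind i u hu v hv⟩, fun i j hij =>
      ⟨disjoint_left.2 fun u hu hv => hij (h.dis i j u hu hv),
        con_iff.2 ⟨(h.ne i).mono subset_union_left, h.con i j hij⟩⟩⟩

theorem St.nbr (h : St G V) {i j : Fin k} (hij : i ≠ j) (hc : Con G (V i ∪ V j))
    (hj : (V j).Nonempty) (hu : u ∈ V i) : ∃ w ∈ V j, G.Adj u w := by
  obtain ⟨y, hy⟩ := hj
  obtain ⟨w, hw, a⟩ := hc.nbr (Or.inl hu) (Or.inr hy) fun e => hij (h.dis i j u hu (e ▸ hy))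
  exact ⟨w, hw.resolve_left fun hw => h.ind i u hu w hw a, a⟩

theorem Bil.nbr (h : Bil G V) {i j : Fin k} (hij : i ≠ j) (hu : u ∈ V i) :
    ∃ w ∈ V j, G.Adj u w := h.toSt.nbr hij (h.con i j hij) (h.ne j) hu

variable [Finite α]

theorem Bil.card_le (h : Bil G V) : k ≤ (⋃ i, V i).ncard := by
  choose f hf using h.ne
  have : (range f).ncard = k := by
    rw [ncard_range_of_injective (f := f) fun i j e => h.dis i j _ (hf i) (e ▸ hf j)]; simp
  exact this.ge.trans (ncard_le_ncard (range_subset_iff.2 fun i => mem_iUnion.2 ⟨i, hf i⟩))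

theorem coll_iff (hk : 3 ≤ k) : Coll G V ↔ Col G V := by
  rw [Coll, Col, bil_iff]
  refine and_congr_right fun h => ⟨fun he => ?_, fun h4 => ⟨fun e => ?_⟩⟩
  · by_contra hc
    have h1 := h.card_le
    have h3 : Nat.card (⋃ i, V i : Set α) = 3 := by rw [Nat.card_coe_set_eq]; omega
    choose f hf using h.ne
    have hr : range f = ⋃ i, V i := by
      refine eq_of_subset_of_ncard_le (range_subset_iff.2 fun i => mem_iUnion.2 ⟨i, hf i⟩) ?_
      rw [ncard_range_of_injective (f := f) fun i j e => h.dis i j _ (hf i) (e ▸ hf j)]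
      simp only [Nat.card_eq_fintype_card, Fintype.card_fin]; omega
    refine he.false ⟨Finite.equivFinOfCardEq h3, fun {a b} => ?_⟩
    simp only [SimpleGraph.top_adj, ne_eq, EmbeddingLike.apply_eq_iff_eq, SimpleGraph.comap_adj,
      Function.Embedding.subtype_apply]
    refine ⟨fun hab => ?_, fun hab e => hab.ne (congrArg _ e)⟩
    obtain ⟨i, hi⟩ : a.1 ∈ range f := hr.ge a.2
    obtain ⟨j, hj⟩ : b.1 ∈ range f := hr.ge b.2
    have hij : i ≠ j := fun e => hab (Subtype.ext (by rw [← hi, ← hj, e]))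
    obtain ⟨w, hw, a⟩ := h.nbr hij (hf i)
    obtain ⟨l, rfl⟩ : w ∈ range f := hr.ge (mem_iUnion.2 ⟨j, hw⟩)
    rw [← hi, ← hj, ← h.dis l j _ (hf l) hw]
    exact a
  · have := Nat.card_congr e.toEquiv
    rw [Nat.card_coe_set_eq] at this
    simp at this; omega

noncomputable def Phi (G : SimpleGraph α) (V : Fin k → Set α) : ℕ :=
  ∑ p ∈ (Finset.univ : Finset (Fin k)).offDiag, cc G (V p.1 ∪ V p.2)

theorem Bil.phi (h : Bil G V) : Phi G V ≤ k * k - k := by
  refine (Finset.sum_le_card_nsmul _ _ 1 fun p hp => ?_).trans (by simp)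
  exact (h.con _ _ (Finset.mem_offDiag.1 hp).2.2).cc_le

theorem sum_off (l : Fin k) (d : Fin k → ℕ) :
    ∑ p ∈ (Finset.univ : Finset (Fin k)).offDiag,
      ((if p.1 = l then d p.2 else 0) + if p.2 = l then d p.1 else 0)
      = 2 * ∑ j ∈ Finset.univ.erase l, d j := by
  have e : (Finset.univ : Finset (Fin k)).offDiag = Finset.univ.filter fun p => p.1 ≠ p.2 := by
    ext p; simp
  rw [e, Finset.sum_add_distrib, two_mul, ← Finset.filter_ne', Finset.sum_filter, Finset.sum_filter,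
    Finset.sum_filter, Fintype.sum_prod_type, Fintype.sum_prod_type_right]
  congr 1
  · rw [Finset.sum_eq_single l (fun i _ hi => by simp [hi]) (by simp)]
    simp [eq_comm]
  · rw [Finset.sum_eq_single l (fun i _ hi => by simp [hi]) (by simp)]
    simp

theorem phi_remove (h : St G V) {l : Fin k} (hv : v ∈ V l) :
    Phi G (fun i => V i \ {v}) + 2 * (k - 1) ≤
      Phi G V + 2 * ((⋃ i, V i) ∩ {w | G.Adj v w}).ncard := by
  classical
  have h1 := sum_off l fun _ => 1
  have h2 := sum_off l fun j => (V j ∩ {w | G.Adj v w}).ncard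
  have h3 : ∑ j ∈ Finset.univ.erase l, (V j ∩ {w | G.Adj v w}).ncard
      ≤ ((⋃ i, V i) ∩ {w | G.Adj v w}).ncard := by
    refine (Finset.sum_le_sum_of_subset (Finset.subset_univ _)).trans (le_of_eq ?_)
    rw [iUnion_inter, ← finsum_eq_sum_of_fintype]
    exact (ncard_iUnion_of_finite (fun _ => toFinite _) fun i j hij =>
      disjoint_left.2 fun w hw hw' => hij (h.dis i j w hw.1 hw'.1)).symm
  simp only [Finset.sum_const, Finset.card_erase_of_mem (Finset.mem_univ l), Finset.card_univ,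
    Fintype.card_fin, smul_eq_mul, mul_one] at h1
  rw [← h1]
  refine le_trans ?_ (Nat.add_le_add_left (h2.le.trans (Nat.mul_le_mul_left 2 h3)) _)
  unfold Phi
  rw [← Finset.sum_add_distrib, ← Finset.sum_add_distrib]
  refine Finset.sum_le_sum fun p hp => ?_
  have hp := (Finset.mem_offDiag.1 hp).2.2
  rw [← union_sdiff_distrib]
  have key : ∀ j, (V l ∪ V j) ∩ {w | G.Adj v w} = V j ∩ {w | G.Adj v w} := fun j => by
    ext w
    exact ⟨fun hw => ⟨hw.1.resolve_left fun h' => h.ind l v hv w h' hw.2, hw.2⟩,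
      fun hw => ⟨Or.inr hw.1, hw.2⟩⟩
  by_cases a1 : p.1 = l
  · have a2 : p.2 ≠ l := fun e => hp (a1.trans e.symm)
    simp only [a1, a2, if_true, if_false, add_zero]
    rw [← key]; exact cc_remove (Or.inl hv)
  · by_cases a2 : p.2 = l
    · simp only [a1, a2, if_true, if_false, zero_add]
      rw [← key, union_comm]; exact cc_remove (Or.inl hv)
    · simp only [a1, a2, if_false, add_zero]
      rw [sdiff_singleton_eq_self fun hc => hc.elim (fun hc => a1 (h.dis _ _ v hc hv))
        fun hc => a2 (h.dis _ _ v hc hv)]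

theorem phi_remove' (h : St G V) (e : ℕ)
    (hd : ((⋃ i, V i) ∩ {w | G.Adj v w}).ncard ≤ k - 1 + e) :
    Phi G (fun i => V i \ {v}) ≤ Phi G V + 2 * e := by
  by_cases hv : ∃ l, v ∈ V l
  · obtain ⟨l, hv⟩ := hv
    have := phi_remove h hv
    omega
  · have : (fun i => V i \ {v}) = V := funext fun i => sdiff_singleton_eq_self fun hc => hv ⟨i, hc⟩
    rw [this]; omega

theorem excess (hne : ∀ i, (V i).Nonempty) (h : Phi G V ≤ k * k - k + 2) {i j : Fin k}
    (hij : i ≠ j) (hc : ¬ Con G (V i ∪ V j)) : cc G (V i ∪ V j) ≤ 2 ∧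
      ∀ i' j', i' ≠ j' → (i', j') ≠ (i, j) → (i', j') ≠ (j, i) → Con G (V i' ∪ V j') := by
  have h1 : ∑ p ∈ (Finset.univ : Finset (Fin k)).offDiag, (cc G (V p.1 ∪ V p.2) - 1) ≤ 2 := by
    have : Phi G V = ∑ p ∈ (Finset.univ : Finset (Fin k)).offDiag,
        (cc G (V p.1 ∪ V p.2) - 1 + 1) := Finset.sum_congr rfl fun p _ => by
      have := cc_pos (G := G) ((hne p.1).mono (subset_union_left (t := V p.2))); omega
    rw [this, Finset.sum_add_distrib] at h
    simp only [Finset.sum_const, Finset.offDiag_card, Finset.card_univ, Fintype.card_fin,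
      smul_eq_mul, mul_one] at h
    omega
  have h2 : ¬ cc G (V i ∪ V j) ≤ 1 := fun h => hc (con_of_cc h)
  have hji : (i, j) ≠ (j, i) := fun e => hij (congrArg Prod.fst e)
  constructor
  · have := (Finset.sum_le_sum_of_subset (s := {(i, j), (j, i)}) (by
      intro p hp; simp only [Finset.mem_insert, Finset.mem_singleton] at hp
      rcases hp with rfl | rfl <;> simp [hij, hij.symm])).trans h1
    rw [Finset.sum_pair hji, union_comm (V j)] at this
    dsimp only at this; omega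
  · intro i' j' a1 a2 a3
    have := (Finset.sum_le_sum_of_subset (s := {(i', j'), (i, j), (j, i)}) (by
      intro p hp; simp only [Finset.mem_insert, Finset.mem_singleton] at hp
      rcases hp with rfl | rfl | rfl <;> simp [hij, hij.symm, a1])).trans h1
    rw [Finset.sum_insert (by simp only [Finset.mem_insert, Finset.mem_singleton, not_or]; exact ⟨a2, a3⟩),
      Finset.sum_pair hji, union_comm (V j)] at this
    dsimp only at this
    exact con_of_cc (by omega)

noncomputable def eIn (G : SimpleGraph α) (X : Set α) : ℕ :=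
  {e | e ∈ G.edgeSet ∧ ∀ v ∈ e, v ∈ X}.ncard

theorem eIn_remove {X : Set α} (hv : v ∈ X) :
    eIn G (X \ {v}) + (X ∩ {w | G.Adj v w}).ncard ≤ eIn G X := by
  unfold eIn
  rw [← ncard_image_of_injective (X ∩ {w | G.Adj v w}) (f := fun w => s(v, w))
    (fun a b h => Sym2.congr_right.1 h), ← ncard_union_eq]
  · refine ncard_le_ncard (union_subset (fun e he => ⟨he.1, fun w hw => (he.2 w hw).1⟩) ?_)
    rintro _ ⟨w, hw, rfl⟩
    refine ⟨hw.2, fun x hx => ?_⟩
    rcases Sym2.mem_iff.1 hx with rfl | rfl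
    exacts [hv, hw.1]
  · refine disjoint_left.2 ?_
    rintro _ he ⟨w, -, rfl⟩
    exact (he.2 v (Sym2.mem_mk_left _ _)).2 rfl

theorem phi_edges (m : ℕ) : ∀ V : Fin k → Set α, St G V → (⋃ i, V i).ncard = m →
    2 * (k - 1) * m ≤ Phi G V + 2 * eIn G (⋃ i, V i) := by
  induction m with
  | zero => intros; omega
  | succ m ih =>
    intro V h hm
    obtain ⟨v, hv⟩ := (ncard_pos (s := ⋃ i, V i)).1 (by omega)
    obtain ⟨l, hl⟩ := mem_iUnion.1 hv
    have h1 := ncard_sdiff_singleton_add_one hv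
    have h2 := ih (fun i => V i \ {v}) (h.sub (fun _ => sdiff_subset) le_rfl)
      (by rw [← iUnion_sdiff]; omega)
    have h3 := phi_remove h hl
    have h4 := eIn_remove (G := G) hv
    rw [← iUnion_sdiff] at h2
    rw [mul_add]
    omega

def Spa (G : SimpleGraph α) (m : ℕ) : Prop :=
  ∀ X : Set α, X.Nonempty → X.ncard ≤ m → 4 * eIn G X < 5 * X.ncard

theorem Spa.mono {m : ℕ} (h : Spa G m) (hG : G' ≤ G) : Spa G' m := fun X h1 h2 =>
  lt_of_le_of_lt (Nat.mul_le_mul_left 4 (show eIn G' X ≤ eIn G X from ncard_le_ncard fun _ he =>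
    And.intro (SimpleGraph.edgeSet_mono hG he.1) he.2)) (h X h1 h2)

theorem Col.large {m : ℕ} (hk : 3 ≤ k) (h : Col G V) (hs : Spa G m) : m < (⋃ i, V i).ncard := by
  by_contra hc
  have h1 := hs _ ((ncard_pos (s := ⋃ i, V i)).1 (by have := h.2; omega)) (not_lt.1 hc)
  have h2 := phi_edges _ V h.1.toSt rfl
  have h3 := h.1.phi
  have h4 := h.1.card_le
  have h5 := h.2
  obtain ⟨q, rfl⟩ : ∃ q, k = q + 3 := ⟨k - 3, by omega⟩
  rw [show (q + 3) * (q + 3) - (q + 3) = (q + 3) * (q + 2) from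
    Nat.sub_eq_of_eq_add (by ring)] at h3
  rw [show q + 3 - 1 = q + 2 from rfl] at h2
  rcases Nat.eq_zero_or_pos q with rfl | hq
  · omega
  · nlinarith

end Pool.Agent.Lib.MP_4b2155_pr.Q
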