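import Pool.Agent.Lib.MP_4b2155_pr.Defs

set_option autoImplicit false

namespace Pool.Agent.Lib.MP_4b2155_pr.Q

open Set

variable {α : Type} {k : ℕ} {G G' : SimpleGraph α} {S S' Y : Set α} {u v w : α}

def R (G : SimpleGraph α) (S : Set α) : α → α → Prop :=
  Relation.ReflTransGen fun a b => a ∈ S ∧ b ∈ S ∧ G.Adj a b

def Con (G : SimpleGraph α) (S : Set α) : Prop := ∀ u ∈ S, ∀ v ∈ S, R G S u v

theorem R.rfl' : R G S u u := Relation.ReflTransGen.refl

theorem R.trans (h : R G S u v) (h' : R G S v w) : R G S u w := Relation.ReflTransGen.trans h h'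

theorem R.one (hu : u ∈ S) (hv : v ∈ S) (h : G.Adj u v) : R G S u v :=
  Relation.ReflTransGen.single ⟨hu, hv, h⟩

theorem R.symm (h : R G S u v) : R G S v u := by
  induction h with
  | refl => exact R.rfl'
  | tail _ h ih => exact (R.one h.2.1 h.1 h.2.2.symm).trans ih

theorem R.mono (h : R G S u v) (hS : S ⊆ S')
    (hG : ∀ a ∈ S, ∀ b ∈ S, G.Adj a b → G'.Adj a b) : R G' S' u v := by
  induction h with
  | refl => exact R.rfl'
  | tail _ h ih => exact ih.trans (R.one (hS h.1) (hS h.2.1) (hG _ h.1 _ h.2.1 h.2.2))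

theorem R.closed (h : R G S u v) (hY : ∀ a ∈ Y, a ∈ S → ∀ b ∈ S, G.Adj a b → b ∈ Y)
    (hu : u ∈ Y) : v ∈ Y := by
  induction h with
  | refl => exact hu
  | tail _ h ih => exact hY _ ih h.1 _ h.2.1 h.2.2

theorem Con.mono (h : Con G S) (hG : ∀ a ∈ S, ∀ b ∈ S, G.Adj a b → G'.Adj a b) : Con G' S :=
  fun u hu v hv => (h u hu v hv).mono subset_rfl hG

theorem con_hub (a : α) (h : ∀ u ∈ S, R G S u a) : Con G S :=
  fun u hu v hv => (h u hu).trans (h v hv).symm

theorem Con.nbr (h : Con G S) (hu : u ∈ S) (hv : v ∈ S) (huv : u ≠ v) : ∃ w ∈ S, G.Adj u w := by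
  by_contra hc
  push Not at hc
  exact huv ((h u hu v hv).closed (Y := {u}) (fun a ha _ b hb hab => by
    rw [mem_singleton_iff.1 ha] at hab; exact absurd hab (hc b hb)) rfl).symm

theorem con_iff : (G.induce S).Connected ↔ S.Nonempty ∧ Con G S := by
  constructor
  · intro h
    obtain ⟨⟨a, ha⟩⟩ := h.nonempty
    refine ⟨⟨a, ha⟩, fun u hu v hv => ?_⟩
    have key : ∀ x y : S, (G.induce S).Walk x y → R G S x y := fun x y p => by
      induction p with
      | nil => exact R.rfl'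
      | @cons a b _ hab _ ih => exact (R.one a.2 b.2 hab).trans ih
    obtain ⟨p⟩ := h.preconnected ⟨u, hu⟩ ⟨v, hv⟩
    exact key _ _ p
  · rintro ⟨⟨a, ha⟩, h⟩
    have : Nonempty S := ⟨⟨a, ha⟩⟩
    refine ⟨fun x y => ?_⟩
    have key : ∀ v, R G S x v → ∀ hv : v ∈ S, (G.induce S).Reachable x ⟨v, hv⟩ := fun v hv => by
      induction hv with
      | refl => exact fun _ => SimpleGraph.Reachable.refl _
      | tail _ h ih => exact fun hv => (ih h.1).trans (SimpleGraph.Adj.reachable h.2.2)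
    exact key y (h x x.2 y y.2) y.2

def comp (G : SimpleGraph α) (S : Set α) (u : α) : Set α := {v | R G S u v}

theorem comp_sub (hu : u ∈ S) : comp G S u ⊆ S := fun _ hv =>
  R.closed hv (fun _ _ _ _ hb _ => hb) hu

theorem comp_eq (h : R G S u v) : comp G S u = comp G S v :=
  Set.ext fun _ => ⟨fun hw => h.symm.trans hw, fun hw => h.trans hw⟩

theorem comp_step (h : v ∈ comp G S u) (hv : v ∈ S) (hw : w ∈ S) (a : G.Adj v w) :
    w ∈ comp G S u := R.trans h (R.one hv hw a)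

theorem con_comp : Con G (comp G S u) := by
  refine con_hub u fun v hv => R.symm ?_
  have hv' : R G S u v := hv
  induction hv' with
  | refl => exact R.rfl'
  | tail h1 h ih => exact (ih h1).trans (R.one h1 hv h.2.2)

noncomputable def cc (G : SimpleGraph α) (S : Set α) : ℕ := (comp G S '' S).ncard

theorem cc_congr (h : ∀ a ∈ S, ∀ b ∈ S, (G.Adj a b ↔ G'.Adj a b)) : cc G S = cc G' S := by
  have : comp G S = comp G' S := funext fun u => Set.ext fun v =>
    ⟨fun hv => R.mono hv subset_rfl fun a ha b hb => (h a ha b hb).1,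
      fun hv => R.mono hv subset_rfl fun a ha b hb => (h a ha b hb).2⟩
  rw [cc, cc, this]

variable [Finite α]

theorem cc_pos (h : S.Nonempty) : 1 ≤ cc G S := (ncard_pos (toFinite _)).2 (h.image _)

theorem Con.cc_le (h : Con G S) : cc G S ≤ 1 := by
  refine (ncard_le_one (toFinite _)).2 ?_
  rintro _ ⟨u, hu, rfl⟩ _ ⟨v, hv, rfl⟩
  exact comp_eq (h u hu v hv)

theorem con_of_cc (h : cc G S ≤ 1) : Con G S := fun u hu v hv => by
  have := (ncard_le_one (toFinite _)).1 h _ ⟨u, hu, rfl⟩ _ ⟨v, hv, rfl⟩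
  exact (this ▸ (R.rfl' : v ∈ comp G S v) : v ∈ comp G S u)

theorem cc_two (h : cc G S ≤ 2) (hu : u ∈ S) (hv : v ∈ S) (huv : ¬ R G S u v) :
    comp G S u ∪ comp G S v = S := by
  refine (union_subset (comp_sub hu) (comp_sub hv)).antisymm fun w hw => ?_
  by_contra hc
  have hc := not_or.1 hc
  have : 2 < cc G S := (two_lt_ncard (toFinite _)).2 ⟨_, ⟨u, hu, rfl⟩, _, ⟨v, hv, rfl⟩, _, ⟨w, hw, rfl⟩,
    fun e => huv (e ▸ (R.rfl' : v ∈ comp G S v) : v ∈ comp G S u),
    fun e => hc.1 (e ▸ (R.rfl' : w ∈ comp G S w)), fun e => hc.2 (e ▸ (R.rfl' : w ∈ comp G S w))⟩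
  omega

theorem cc_remove (hv : v ∈ S) :
    cc G (S \ {v}) + 1 ≤ cc G S + (S ∩ {w | G.Adj v w}).ncard := by
  have h1 : comp G (S \ {v}) '' (S \ {v}) ⊆
      (comp G S '' S \ {comp G S v}) ∪ comp G (S \ {v}) '' (S ∩ {w | G.Adj v w}) := by
    rintro _ ⟨u, hu, rfl⟩
    by_cases h : ∃ w ∈ comp G (S \ {v}) u, G.Adj v w
    · obtain ⟨w, hw, a⟩ := h
      exact Or.inr ⟨w, ⟨(comp_sub hu hw).1, a⟩, (comp_eq hw).symm⟩
    · push Not at h
      have e : comp G S u = comp G (S \ {v}) u := by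
        refine Subset.antisymm (fun w hw => R.closed hw (fun a ha _ b hb hab => ?_) R.rfl')
          fun w hw => R.mono hw sdiff_subset fun _ _ _ _ h => h
        refine comp_step ha (comp_sub hu ha) ⟨hb, fun e => ?_⟩ hab
        exact h a ha (mem_singleton_iff.1 e ▸ hab.symm)
      refine Or.inl ⟨⟨u, hu.1, e⟩, fun e' => ?_⟩
      have : v ∈ comp G (S \ {v}) u := by rw [mem_singleton_iff.1 e']; exact R.rfl'
      exact (comp_sub hu this).2 rfl
  have h2 := (ncard_le_ncard h1 (toFinite _)).trans (ncard_union_le _ _)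
  have h3 := ncard_sdiff_singleton_add_one (s := comp G S '' S) (a := comp G S v) ⟨v, hv, rfl⟩
  have h4 := ncard_image_le (s := S ∩ {w | G.Adj v w}) (f := comp G (S \ {v}))
  unfold cc
  omega

omit [Finite α] in
theorem del_edge (h : Con G S) (hG : ∀ a b, G.Adj a b → G'.Adj a b ∨ s(a, b) = s(u, v))
    (hu : u ∈ S) (hv : v ∈ S) : comp G' S u ∪ comp G' S v = S := by
  refine (union_subset (comp_sub hu) (comp_sub hv)).antisymm fun w hw => ?_
  refine (h u hu w hw).closed (fun a ha haS b hb hab => ?_) (Or.inl R.rfl')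
  rcases hG a b hab with h1 | h1
  · exact ha.imp (comp_step · haS hb h1) (comp_step · haS hb h1)
  · rcases Sym2.eq_iff.1 h1 with ⟨-, rfl⟩ | ⟨-, rfl⟩
    · exact Or.inr R.rfl'
    · exact Or.inl R.rfl'

end Pool.Agent.Lib.MP_4b2155_pr.Q
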