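import Pool.Agent.Lib.MP_4b2155_pr.Q.Near

set_option autoImplicit false

namespace Pool.Agent.Lib.MP_4b2155_pr.Q

open Set

variable {α : Type} {k : ℕ} {G G₀ G' : SimpleGraph α} {V W : Fin k → Set α} {C D : Set α}
  {X : Fin 3 → α} {γ : Fin 3 → Fin k} {ρ : Fin 3 → Fin k → α} {u v : α} {m : Fin 3}

structure Gad (G : SimpleGraph α) (V : Fin k → Set α) (C D : Set α) (X : Fin 3 → α)
    (γ : Fin 3 → Fin k) (ρ : Fin 3 → Fin k → α) : Prop where
  hk : 3 ≤ k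
  near : Near G V (γ 1) (γ 0) C D
  inj : Function.Injective X
  ginj : Function.Injective γ
  iso : ∀ m v, ¬ G.Adj (X m) v
  tri : ∀ m, ρ m (γ (m + 2)) = X (m + 2)
  pC : ρ 0 (γ 0) ∈ C
  pV : ρ 0 (γ 0) ∈ V (γ 1)
  dum : ∀ m, m ≠ 0 → ρ m (γ m) = X m
  pD : ρ 0 (γ 1) ∈ D
  ter : ∀ m c, c ≠ γ m → c ≠ γ (m + 2) → ρ m c ∈ V c

def Up (G G' : SimpleGraph α) (X : Fin 3 → α) (ρ : Fin 3 → Fin k → α) : Prop :=
  ∀ u v, G'.Adj u v → G.Adj u v ∨ ∃ m c, s(u, v) = s(X m, ρ m c)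

theorem Up.mono (h : Up G₀ G' X ρ) (hG : G₀ ≤ G) : Up G G' X ρ :=
  fun u v a => (h u v a).imp_left fun a => hG a

theorem Up.off (h : Up G G' X ρ) (hu : u ∉ range X) (hv : v ∉ range X) (a : G'.Adj u v) :
    G.Adj u v := (h u v a).resolve_right fun ⟨m, _, e⟩ => by
  rcases Sym2.eq_iff.1 e with ⟨e, -⟩ | ⟨-, e⟩
  exacts [hu ⟨m, e.symm⟩, hv ⟨m, e.symm⟩]

theorem Gad.notMem (g : Gad G V C D X γ ρ) (m : Fin 3) (l : Fin k) : X m ∉ V l := fun h => by
  obtain ⟨w, a⟩ := g.near.nbr g.hk (mem_iUnion.2 ⟨l, h⟩)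
  exact g.iso m w a

theorem Gad.gne (g : Gad G V C D X γ ρ) {m m' : Fin 3} (h : m ≠ m') : γ m ≠ γ m' :=
  fun e => h (g.ginj e)

theorem Gad.nb (g : Gad G V C D X γ ρ) (h : Up G G' X ρ) (a : G'.Adj (X m) v) :
    (∃ c, v = ρ m c) ∨ v = X (m + 1) := by
  obtain ⟨m', c, e⟩ := (h _ _ a).resolve_left (g.iso m v)
  rcases Sym2.eq_iff.1 e with ⟨e1, e2⟩ | ⟨e1, e2⟩
  · exact Or.inl ⟨c, g.inj e1 ▸ e2⟩
  by_cases h1 : c = γ (m' + 2)
  · rw [h1, g.tri] at e1
    rw [e2, g.inj e1]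
    exact Or.inr (congrArg X (by fin_cases m' <;> rfl))
  by_cases h2 : c = γ m'
  · by_cases h3 : m' = 0
    · subst h3; exact absurd (e1 ▸ h2 ▸ g.pV) (g.notMem m _)
    · rw [h2, g.dum m' h3] at e1
      exact absurd (e1.trans e2.symm) a.ne
  · exact absurd (e1 ▸ g.ter m' c h2 h1) (g.notMem m c)

theorem card_c1 (c : Fin k) : ({c}ᶜ : Set (Fin k)).ncard = k - 1 := by
  have := ncard_add_ncard_compl ({c} : Set (Fin k))
  simp only [ncard_singleton, Nat.card_eq_fintype_card, Fintype.card_fin] at this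
  omega

theorem card_c2 {c d : Fin k} (h : c ≠ d) : ({c, d}ᶜ : Set (Fin k)).ncard = k - 2 := by
  have := ncard_add_ncard_compl ({c, d} : Set (Fin k))
  simp only [ncard_pair h, Nat.card_eq_fintype_card, Fintype.card_fin] at this
  omega

def Ter (X : Fin 3 → α) (ρ : Fin 3 → Fin k → α) : Set α :=
  range X ∪ range fun p : Fin 3 × Fin k => ρ p.1 p.2

theorem card_range_le {ι : Type} [Fintype ι] (f : ι → α) : (range f).ncard ≤ Fintype.card ι := by
  rw [← image_univ]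
  exact (ncard_image_le (toFinite _)).trans (by simp [ncard_univ])

theorem card_Ter : (Ter X ρ).ncard ≤ 3 + 3 * k :=
  (ncard_union_le _ _).trans (add_le_add (by simpa using card_range_le X)
    (by simpa using card_range_le fun p : Fin 3 × Fin k => ρ p.1 p.2))

theorem Gad.nbT (g : Gad G V C D X γ ρ) (h : Up G G' X ρ) (a : G'.Adj (X m) v) : v ∈ Ter X ρ := by
  rcases g.nb h a with ⟨c, e⟩ | e
  exacts [Or.inr ⟨(m, c), e.symm⟩, Or.inl ⟨_, e.symm⟩]

variable [Finite α]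

theorem Gad.no_early {m₀ : ℕ} (g : Gad G V C D X γ ρ) (h0 : G₀ ≤ G) (lo : G₀ ≤ G')
    (up : Up G₀ G' X ρ) (hn : ∀ W : Fin k → Set α, ¬ Col G₀ W)
    (ha : ∀ m c, ρ m c ∉ range X → ¬ Active k m₀ G₀ (ρ m c)) (hW : Col G' W)
    (h1 : m₀ < (⋃ i, W i).ncard) (h2 : 3 * k + 6 ≤ m₀) : False := by
  have hk := g.hk
  have up' := up.mono h0
  have s0 := hW.1.toSt
  have p1 := phi_remove' (v := X 1) s0 1 (by
    refine (ncard_le_ncard (t := ρ 1 '' {γ 1}ᶜ ∪ {X 2}) fun v hv => ?_).trans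
      ((ncard_union_le _ _).trans (add_le_add ((ncard_image_le (toFinite _)).trans (card_c1 _).le) (by simp)))
    rcases g.nb up' hv.2 with ⟨c, e⟩ | e
    · exact Or.inl ⟨c, fun h => hv.2.ne (by rw [e, h, g.dum 1 (by decide)]), e.symm⟩
    · exact Or.inr e)
  have s1 := s0.sub (W := fun i => W i \ {X 1}) (fun _ => sdiff_subset) le_rfl
  have p2 := phi_remove' (v := X 2) s1 0 (by
    refine (ncard_le_ncard (t := ρ 2 '' {γ 2, γ 1}ᶜ ∪ {X 0}) fun v hv => ?_).trans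
      ((ncard_union_le _ _).trans ((add_le_add ((ncard_image_le (toFinite _)).trans
        (card_c2 (g.gne (by decide))).le) (ncard_singleton _).le).trans (by omega)))
    obtain ⟨l, hl⟩ := mem_iUnion.1 hv.1
    rcases g.nb up' hv.2 with ⟨c, e⟩ | e
    · refine Or.inl ⟨c, fun h => ?_, e.symm⟩
      rcases h with h | h
      · exact hv.2.ne (by rw [e, h, g.dum 2 (by decide)])
      · exact hl.2 (by rw [e, h]; exact g.tri 2)
    · exact Or.inr e)
  have s2 := s1.sub (W := fun i => (W i \ {X 1}) \ {X 2}) (fun _ => sdiff_subset) le_rfl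
  have p3 := phi_remove' (v := X 0) s2 0 (by
    refine (ncard_le_ncard (t := ρ 0 '' {γ 2}ᶜ) fun v hv => ?_).trans
      ((ncard_image_le (toFinite _)).trans (card_c1 _).le)
    obtain ⟨l, hl⟩ := mem_iUnion.1 hv.1
    rcases g.nb up' hv.2 with ⟨c, e⟩ | e
    · exact ⟨c, fun h => hl.2 (by rw [e, h]; exact g.tri 0), e.symm⟩
    · exact absurd e hl.1.2)
  have e3 : (fun i => ((W i \ {X 1}) \ {X 2}) \ {X 0}) = fun i => W i \ range X := by
    funext i; ext v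
    simp only [mem_sdiff, mem_singleton_iff, mem_range, Fin.exists_fin_succ, IsEmpty.exists_iff,
      Fin.succ_zero_eq_one, Fin.succ_one_eq_two, eq_comm (b := v)]
    tauto
  rw [e3] at p3
  set Z : Fin k → Set α := fun i => W i \ range X with hZ
  have off : ∀ i j, ∀ a ∈ Z i ∪ Z j, a ∉ range X := fun i j a ha => ha.elim And.right And.right
  have p4 : Phi G₀ Z = Phi G' Z := Finset.sum_congr rfl fun p _ => cc_congr fun a ha b hb =>
    ⟨fun h => lo h, up.off (off _ _ a ha) (off _ _ b hb)⟩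
  have p5 := hW.1.phi
  have sZ : St G₀ Z := s0.sub (fun _ => sdiff_subset) lo
  have ne : ∀ l, (Z l).Nonempty := fun l => by
    by_contra hc
    have hc : W l ⊆ range X := fun v hv => by_contra fun h => hc ⟨v, hv, h⟩
    have : (⋃ i, W i) ⊆ Ter X ρ := fun v hv => by
      obtain ⟨i, hi⟩ := mem_iUnion.1 hv
      by_cases e : i = l
      · exact Or.inl (hc (e ▸ hi))
      · obtain ⟨w, hw, a⟩ := hW.1.nbr e hi
        obtain ⟨m, rfl⟩ := hc hw
        exact g.nbT up' a.symm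
    have := (ncard_le_ncard this).trans card_Ter
    omega
  have sz : (⋃ i, W i).ncard ≤ (⋃ i, Z i).ncard + 3 := by
    rw [hZ, ← iUnion_sdiff]
    exact (ncard_le_ncard_sdiff_add_ncard _ (range X)).trans
      (Nat.add_le_add_left (by simpa using card_range_le X) _)
  by_cases hc : ∀ i j, i ≠ j → Con G₀ (Z i ∪ Z j)
  · exact hn Z ⟨⟨sZ, ne, hc⟩, by omega⟩
  push Not at hc
  obtain ⟨i, j, hij, hc⟩ := hc
  obtain ⟨c2, c3⟩ := excess ne (by omega) hij hc
  have sub : Z i ∪ Z j ⊆ W i ∪ W j := union_subset_union sdiff_subset sdiff_subset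
  have ter : ∀ u ∈ Z i ∪ Z j, ∀ v ∈ Z i ∪ Z j, ¬ R G₀ (Z i ∪ Z j) u v →
      ∃ w ∈ comp G₀ (Z i ∪ Z j) u, ¬ Active k m₀ G₀ w := fun u hu v hv huv => by
    by_contra h
    push Not at h
    refine huv ((hW.1.con i j hij u (sub hu) v (sub hv)).closed (Y := comp G₀ (Z i ∪ Z j) u)
      (fun a ha' _ b hb hab => ?_) R.rfl')
    have a1 := off _ _ a (comp_sub hu ha')
    by_cases a2 : b ∈ range X
    · obtain ⟨m, rfl⟩ := a2
      rcases g.nb up' hab.symm with ⟨c, e⟩ | e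
      · exact absurd (e ▸ h a ha') (ha m c (e ▸ a1))
      · exact absurd ⟨_, e.symm⟩ a1
    · exact comp_step ha' (comp_sub hu ha') (hb.imp (⟨·, a2⟩) (⟨·, a2⟩)) (up.off a1 a2 hab)
  simp only [Con, not_forall] at hc
  obtain ⟨u, hu, v, hv, huv⟩ := hc
  obtain ⟨u', hu', n1⟩ := ter u hu v hv huv
  obtain ⟨v', hv', n2⟩ := ter v hv u hu fun h => huv h.symm
  refine (active_of sZ ne hij c3 (u := u') (v := v') ?_ (by omega) fun W _ => hn W).elim n1 n2
  rw [← comp_eq hu', ← comp_eq hv']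
  exact cc_two c2 hu hv huv

def Tv (G : SimpleGraph α) : Set α := {v | ∃ a b, G.Adj v a ∧ G.Adj a b ∧ G.Adj b v}

def Vis (G : SimpleGraph α) (M : ℕ) (X : Fin 3 → α) (ρ : Fin 3 → Fin k → α) : Prop :=
  (Tv G).ncard ≤ M ∧ ∀ m, X m ∈ Tv G ∧ (insert (X m) {v | G.Adj (X m) v}).ncard ≤ k + 2 ∧
    ∀ c, ρ m c ∈ insert (X m) {v | G.Adj (X m) v}

omit [Finite α] in
theorem Gad.adjX (g : Gad G V C D X γ ρ) (full : ∀ m c, X m ≠ ρ m c → G'.Adj (X m) (ρ m c))
    (m : Fin 3) : G'.Adj (X m) (X (m + 2)) := by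
  rw [← g.tri]
  exact full _ _ (by rw [g.tri]; exact fun e => absurd (g.inj e) (by fin_cases m <;> decide))

omit [Finite α] in
theorem Gad.cardN (g : Gad G V C D X γ ρ) (up : Up G G' X ρ) (m : Fin 3) :
    (insert (X m) {v | G'.Adj (X m) v}).ncard ≤ k + 2 := by
  refine (ncard_insert_le _ _).trans (Nat.succ_le_succ ?_)
  refine (ncard_le_ncard (t := insert (X (m + 1)) (range (ρ m))) fun v hv => ?_).trans
    ((ncard_insert_le _ _).trans (Nat.succ_le_succ (by simpa using card_range_le (ρ m))))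
  rcases g.nb up hv with ⟨c, e⟩ | e
  exacts [Or.inr ⟨c, e.symm⟩, Or.inl e]

theorem Gad.vis {M : ℕ} (g : Gad G V C D X γ ρ) (up : Up G G' X ρ)
    (full : ∀ m c, X m ≠ ρ m c → G'.Adj (X m) (ρ m c)) (hM : (Tv G).ncard ≤ M) :
    Vis G' (M + 3 + 3 * k) X ρ := by
  refine ⟨?_, fun m => ⟨⟨X (m + 2), X (m + 2 + 2), g.adjX full _, g.adjX full _, ?_⟩, g.cardN up m,
    fun c => ?_⟩⟩
  · have : Tv G' ⊆ Tv G ∪ Ter X ρ := fun v ⟨a, b, h1, h2, h3⟩ => by
      by_cases a1 : v ∈ range X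
      · exact Or.inr (Or.inl a1)
      by_cases a2 : a ∈ range X
      · obtain ⟨m, rfl⟩ := a2; exact Or.inr (g.nbT up h1.symm)
      by_cases a3 : b ∈ range X
      · obtain ⟨m, rfl⟩ := a3; exact Or.inr (g.nbT up h3)
      exact Or.inl ⟨a, b, up.off a1 a2 h1, up.off a2 a3 h2, up.off a3 a1 h3⟩
    have h1 := (ncard_le_ncard this).trans (ncard_union_le _ _)
    have := card_Ter (X := X) (ρ := ρ)
    omega
  · have := g.adjX full (m + 2 + 2)
    rwa [show m + 2 + 2 + 2 = m by fin_cases m <;> rfl] at this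
  · by_cases e : X m = ρ m c
    exacts [Or.inl e.symm, Or.inr (full m c e)]

end Pool.Agent.Lib.MP_4b2155_pr.Q
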