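import Pool.Agent.Lib.MP_4b2155_pr.Q.Move
import Pool.Agent.Lib.MP_4b2155_pr.Q.Gad

set_option autoImplicit false

namespace Pool.Agent.Lib.MP_4b2155_pr.Q

open Finset Pool.Agent.Lib.MP_ad359d_co FP

noncomputable section

variable {n T : ℕ} {p c : ℝ}

def All (n T : ℕ) (p : ℝ) : Prop :=
  ∀ F : Finset (Ed n), (mu n).P (fun π => ∀ e ∈ F, (π e : ℕ) < T) ≤ p ^ #F

theorem All.sub (h : All n T p) (hp : 0 ≤ p) (Y : Finset (Ed n)) (r y : ℕ) (hy : #Y ≤ y) :
    (mu n).P (fun π => r ≤ cnt Y fun e => (π e : ℕ) < T) ≤ y.choose r * p ^ r := by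
  classical
  calc _ ≤ (mu n).P fun π => ∃ F ∈ powersetCard r Y, ∀ e ∈ F, (π e : ℕ) < T := by
        refine P_mono _ fun π hπ => ?_
        rw [cnt_eq] at hπ
        obtain ⟨F, f1, f2⟩ := exists_subset_card_eq hπ
        exact ⟨F, mem_powersetCard.2 ⟨f1.trans (filter_subset _ _), f2⟩,
          fun e he => (mem_filter.1 (f1 he)).2⟩
    _ ≤ _ := by
        refine (P_exists_le _ _ _).trans ((sum_le_card_nsmul _ _ (p ^ r) fun F hF =>
          (mem_powersetCard.1 hF).2 ▸ h F).trans ?_)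
        rw [card_powersetCard, nsmul_eq_mul]
        gcongr

theorem card_ed_le (Y : Finset (Ed n)) (Z : Finset (Fin n × Fin n))
    (h : ∀ e ∈ Y, ∃ a ∈ Z, e.1 = s(a.1, a.2)) : #Y ≤ #Z := by
  rw [← card_image_of_injective Y Subtype.val_injective]
  refine (card_le_card fun e he => ?_).trans (card_image_le (f := fun a => s(a.1, a.2)))
  obtain ⟨e₀, he₀, rfl⟩ := mem_image.1 he
  obtain ⟨a, ha, e'⟩ := h e₀ he₀
  exact mem_image.2 ⟨a, ha, e'.symm⟩

theorem ncard_cnt {α : Type} [Fintype α] (s : Set α) : s.ncard = cnt univ (· ∈ s) := by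
  classical
  rw [cnt_eq, ← Set.ncard_coe_finset]; simp

theorem ncard_le_cnt {π : Ord n} (A : Set (Sym2 (Fin n))) (Y : Finset (Ed n))
    (h : ∀ e ∈ A, e ∈ (proc π T).edgeSet ∧ ∀ h, ⟨e, h⟩ ∈ Y) :
    A.ncard ≤ cnt Y fun e => (π e : ℕ) < T := by
  classical
  rw [cnt_eq, ← Set.ncard_coe_finset, ← Set.ncard_image_of_injective _ Subtype.val_injective]
  refine Set.ncard_le_ncard fun e he => ?_
  obtain ⟨h1, h2⟩ := h e he
  induction e using Sym2.ind with
  | _ u v =>
    obtain ⟨h3, h4⟩ := proc_adj.1 h1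
    exact ⟨⟨_, h3⟩, mem_coe.2 (mem_filter.2 ⟨h2 h3, h4⟩), rfl⟩

theorem spa_term {ε θ : ℝ} (hc : 1 ≤ c) (hn : 0 < n) (hε : 3 ^ 9 * c ^ 5 * ε ≤ 1 / 32)
    (hθ : 0 ≤ θ) (hθ' : 16 * (3 ^ 9 * c ^ 5) / n ≤ θ ^ 4) (s : ℕ) (hs : 0 < s)
    (hs2 : (s : ℝ) ≤ ε * n) : (n.choose s : ℝ) *
      ((s * s).choose ((5 * s + 3) / 4) * (c / n) ^ ((5 * s + 3) / 4)) ≤ θ * (1 / 2) ^ s := by
  have hn' : (0 : ℝ) < n := by exact_mod_cast hn
  have hs' : (0 : ℝ) < s := by exact_mod_cast hs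
  set r := (5 * s + 3) / 4 with hr
  have r1 : (s : ℝ) ≤ r := by exact_mod_cast (by omega)
  set z : ℝ := s / n with hz
  have z0 : 0 < z := by positivity
  have z1 : 3 ^ 9 * c ^ 5 * z ≤ 1 / 32 :=
    le_trans (by gcongr; rw [hz, div_le_iff₀ hn']; exact hs2) hε
  have z2 : 3 * c * z ≤ 1 := by
    have : c ≤ c ^ 5 := le_self_pow₀ hc (by norm_num)
    nlinarith
  have a1 : (n.choose s : ℝ) * ((s * s).choose r * (c / n) ^ r) ≤ (3 / z) ^ s * (3 * c * z) ^ r :=
    calc _ ≤ (3 * n / s) ^ s * ((3 * (s * s : ℕ) / r) ^ r * (c / n) ^ r) := by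
          gcongr
          · exact choose_le _ _ hs
          · exact choose_le _ _ (by omega)
      _ ≤ (3 * n / s) ^ s * ((3 * (s * s : ℕ) / s) ^ r * (c / n) ^ r) := by gcongr
      _ = _ := by
          rw [← mul_pow]; congr 2
          · rw [hz]; field_simp
          · rw [hz]; push_cast; field_simp
  refine a1.trans (le_of_pow_le_pow_left₀ (n := 4) (by norm_num) (by positivity) ?_)
  obtain ⟨s', hs'⟩ : ∃ s', s = s' + 1 := ⟨s - 1, by omega⟩
  have a2 : z ≤ 2 ^ s' / n := by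
    rw [hz, hs']; gcongr; exact_mod_cast Nat.lt_two_pow_self
  calc _ = (3 / z) ^ (4 * s) * (3 * c * z) ^ (4 * r) := by ring
    _ ≤ (3 / z) ^ (4 * s) * (3 * c * z) ^ (5 * s) :=
        mul_le_mul_of_nonneg_left (pow_le_pow_of_le_one (by positivity) z2 (by omega)) (by positivity)
    _ = (3 ^ 9 * c ^ 5 * z) ^ s' * (3 ^ 9 * c ^ 5 * z) := by
        rw [pow_mul, pow_mul, ← mul_pow, ← pow_succ, ← hs']; congr 1; field_simp
    _ ≤ (1 / 32) ^ s' * (3 ^ 9 * c ^ 5 * (2 ^ s' / n)) := by gcongr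
    _ = 16 * (3 ^ 9 * c ^ 5) / n * ((1 / 2) ^ s) ^ 4 := by
        have e : (1 / 32 : ℝ) ^ s' * 2 ^ s' = ((1 / 2) ^ s') ^ 4 := by
          rw [← mul_pow, ← pow_mul, mul_comm s', pow_mul]; norm_num
        rw [hs', pow_succ (1 / 2 : ℝ) s', mul_pow _ (1 / 2 : ℝ), ← e]; ring
    _ ≤ _ := by rw [mul_pow θ]; gcongr

theorem spa_prob {ε θ : ℝ} {m : ℕ} (h : All n T (c / n)) (hc : 1 ≤ c) (hn : 0 < n)
    (hε : 3 ^ 9 * c ^ 5 * ε ≤ 1 / 32) (hθ : 0 ≤ θ) (hθ' : 16 * (3 ^ 9 * c ^ 5) / n ≤ θ ^ 4)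
    (hm : (m : ℝ) ≤ ε * n) : (mu n).P (fun π => ¬ Spa (proc π T) m) ≤ 2 * θ := by
  classical
  calc _ ≤ (mu n).P fun π => ∃ s ∈ Icc 1 m, ∃ X ∈ powersetCard s (univ : Finset (Fin n)),
        (5 * s + 3) / 4 ≤ cnt (univ.filter fun e : Ed n => ∀ v ∈ e.1, v ∈ X)
          fun e => (π e : ℕ) < T := by
        refine P_mono _ fun π hπ => ?_
        simp only [Spa, not_forall, not_lt] at hπ
        obtain ⟨X, x1, x2, x3⟩ := hπ
        lift X to Finset (Fin n) using Set.toFinite X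
        rw [Set.ncard_coe_finset] at x2 x3
        have : eIn (proc π T) X ≤ _ := ncard_le_cnt (π := π) (T := T) _
          (univ.filter fun e : Ed n => ∀ v ∈ e.1, v ∈ X) fun e he => ⟨he.1, fun _ => by simpa using he.2⟩
        exact ⟨#X, mem_Icc.2 ⟨card_pos.2 x1, x2⟩, X, by simp, by omega⟩
    _ ≤ ∑ s ∈ Icc 1 m, θ * (1 / 2 : ℝ) ^ s := by
        refine (P_exists_le _ _ _).trans (sum_le_sum fun s hs => ?_)
        refine (P_exists_le _ _ _).trans (le_trans ?_ (spa_term hc hn hε hθ hθ' s (mem_Icc.1 hs).1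
          (le_trans (by exact_mod_cast (mem_Icc.1 hs).2) hm)))
        refine (sum_le_card_nsmul _ _ _ fun X hX => h.sub (by positivity) _ _ (s * s) ?_).trans
          (by simp)
        rw [← (mem_powersetCard.1 hX).2, ← card_product]
        refine card_ed_le _ _ fun ⟨e, h0⟩ he => ?_
        induction e using Sym2.ind with
        | _ u v => exact ⟨(u, v), by simpa using he, rfl⟩
    _ ≤ _ := by
        rw [← mul_sum, mul_comm]
        gcongr
        exact (sum_le_sum_of_subset_of_nonneg (t := range (m + 1))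
          (fun s hs => mem_range.2 (Nat.lt_succ_of_le (mem_Icc.1 hs).2))
          fun _ _ _ => by positivity).trans (sum_geometric_two_le _)

theorem ex_prob {β : ℝ} (hc : 0 < c) (hβ : 0 < β) : ∃ ε > 0, ∀ n T w r : ℕ, 0 < n →
    All n T (c / n) → (w : ℝ) ≤ ε * n → β * n ≤ r →
    (mu n).P (fun π => ¬ Ex (proc π T) w (w + r)) ≤ Real.exp (-n) := by
  classical
  refine ⟨Real.exp (-(2 / β)) * β / (3 * c), by positivity, fun n T w r hn h hw hr => ?_⟩
  have hn' : (0 : ℝ) < n := by exact_mod_cast hn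
  have hr' : (0 : ℝ) < r := lt_of_lt_of_le (by positivity) hr
  calc _ ≤ (mu n).P fun π => ∃ S ∈ univ.filter fun S : Finset (Fin n) => #S ≤ w,
        r ≤ cnt (univ.filter fun e : Ed n => ∃ v ∈ S, v ∈ e.1) fun e => (π e : ℕ) < T := by
        refine P_mono _ fun π hπ => ?_
        simp only [Ex, not_forall, not_le] at hπ
        obtain ⟨S, x1, x2⟩ := hπ
        have x3 := Set.ncard_le_ncard_sdiff_add_ncard {v | ∃ u ∈ S, (proc π T).Adj u v} S
        have ex : ∀ v ∈ {v | ∃ u ∈ S, (proc π T).Adj u v} \ S, ∃ u ∈ S, (proc π T).Adj u v :=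
          fun v hv => hv.1
        have : Nonempty (Fin n) := ⟨⟨0, hn⟩⟩
        choose! φ hφ using ex
        rw [← Set.InjOn.ncard_image (f := fun v => s(φ v, v)) (s := _ \ S) (fun a ha b hb e => by
          rcases Sym2.eq_iff.1 e with e | e
          exacts [e.2, absurd (e.2 ▸ (hφ b hb).1) ha.2])] at x3
        lift S to Finset (Fin n) using Set.toFinite S
        refine ⟨S, mem_filter.2 ⟨mem_univ _, by simpa using x1⟩,
          le_trans (by omega) (ncard_le_cnt ((fun v => s(φ v, v)) ''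
            ({v | ∃ u ∈ (S : Set _), (proc π T).Adj u v} \ (S : Set _))) _ ?_)⟩
        rintro _ ⟨v, hv, rfl⟩
        exact ⟨(hφ v hv).2, fun _ => mem_filter.2 ⟨mem_univ _, _, (hφ v hv).1, Sym2.mem_mk_left _ _⟩⟩
    _ ≤ 2 ^ n * ((w * n).choose r * (c / n) ^ r) := by
        refine (P_exists_le _ _ _).trans ((sum_le_card_nsmul _ _ _ fun S hS =>
          h.sub (by positivity) _ _ (w * n) ?_).trans ?_)
        · refine (card_ed_le _ (S ×ˢ univ) ?_).trans ?_
          · rintro ⟨e, h0⟩ he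
            obtain ⟨v, hv, hv'⟩ := (mem_filter.1 he).2
            obtain ⟨u, rfl⟩ := Sym2.mem_iff_exists.1 hv'
            exact ⟨(v, u), by simpa using hv, rfl⟩
          · rw [card_product, card_univ, Fintype.card_fin]
            exact Nat.mul_le_mul_right _ (mem_filter.1 hS).2
        · rw [nsmul_eq_mul]
          gcongr
          exact_mod_cast (card_le_univ _).trans (by simp)
    _ ≤ Real.exp 1 ^ n * Real.exp (-(2 / β)) ^ r := by
        refine mul_le_mul (by gcongr; linarith [Real.add_one_le_exp 1]) ?_ (by positivity)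
          (by positivity)
        refine (mul_le_mul_of_nonneg_right (choose_le _ _ (by exact_mod_cast hr'))
          (by positivity)).trans ?_
        rw [← mul_pow]
        gcongr
        calc _ = 3 * c * w / r := by push_cast; field_simp
          _ ≤ 3 * c * (Real.exp (-(2 / β)) * β / (3 * c) * n) / (β * n) := by gcongr
          _ = _ := by field_simp
    _ ≤ _ := by
        rw [← Real.exp_nat_mul, ← Real.exp_nat_mul, ← Real.exp_add]
        refine Real.exp_le_exp.2 ?_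
        have : (2 : ℝ) * n ≤ r * (2 / β) := by
          rw [mul_div_assoc', le_div_iff₀ hβ]; linarith
        linarith

theorem tv_prob (h : All n T (c / n)) (hc : 0 ≤ c) (hn : 0 < n) (M : ℕ) :
    M * (mu n).P (fun π => ¬ (Tv (proc π T)).ncard ≤ M) ≤ c ^ 3 := by
  have hn' : (0 : ℝ) < n := by exact_mod_cast hn
  have h1 : ∀ v : Fin n, (mu n).P (fun π => v ∈ Tv (proc π T)) ≤ n * (n * (c / n) ^ 3) := fun v => by
    have h2 : ∀ a b : Fin n, (mu n).P (fun π => (proc π T).Adj v a ∧ (proc π T).Adj a b ∧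
        (proc π T).Adj b v) ≤ (c / n) ^ 3 := fun a b => by
      by_cases h0 : v ≠ a ∧ a ≠ b ∧ b ≠ v
      · obtain ⟨h1, h2, h3⟩ := h0
        have := h {⟨s(v, a), h1⟩, ⟨s(a, b), h2⟩, ⟨s(b, v), h3⟩}
        rw [card_eq_three.2 ⟨_, _, _, by simp [h1, h3.symm],
          by simp [h1.symm, h2, h3.symm], by simp [h1.symm, h2, h3], rfl⟩] at this
        refine le_trans (P_mono _ fun π ⟨a1, a2, a3⟩ => ?_) this
        simp only [forall_mem_insert, mem_singleton, forall_eq]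
        exact ⟨(proc_adj.1 a1).2, (proc_adj.1 a2).2, (proc_adj.1 a3).2⟩
      · rw [P_false _ fun π ⟨a1, a2, a3⟩ => h0 ⟨a1.ne, a2.ne, a3.ne⟩]; positivity
    have := P_exists_le' (mu n) _ fun a => P_exists_le' (mu n) _ (h2 a)
    rwa [Fintype.card_fin] at this
  calc _ ≤ ∑ v : Fin n, (mu n).P (fun π => v ∈ Tv (proc π T)) := by
        simp only [P]
        rw [← E_sum, ← E_mul_left]
        refine E_mono _ fun π => ?_
        rw [← cnt_cast, ← ncard_cnt]
        by_cases h0 : (Tv (proc π T)).ncard ≤ M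
        · rw [ind_false (not_not.2 h0)]; simp
        · rw [ind_true h0, mul_one]; exact_mod_cast (not_le.1 h0).le
    _ ≤ n * (n * (n * (c / n) ^ 3)) := by simpa using sum_le_card_nsmul univ _ _ fun v _ => h1 v
    _ = _ := by field_simp

theorem iso_prob (hc : 0 ≤ c) (hn : 2 * c ≤ n) (ha : 3 * n < n.choose 2)
    (hy : T ≤ c / n * ((n.choose 2 : ℕ) - (3 * n : ℕ))) (X : Fin 3 → Fin n) :
    Real.exp (-(6 * c)) ≤ (mu n).P fun π => ∀ m v, ¬ (proc π T).Adj (X m) v := by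
  have hn' : (0 : ℝ) < n := by exact_mod_cast (X 0).pos
  have y1 : c / n ≤ 1 / 2 := by rw [div_le_iff₀ hn']; linarith
  have y0 : 0 ≤ c / n := by positivity
  have hF : #(univ.filter fun e : Ed n => ∃ m, X m ∈ e.1) ≤ 3 * n := by
    refine (card_ed_le _ (univ.image X ×ˢ univ) ?_).trans ?_
    · rintro ⟨e, h0⟩ he
      obtain ⟨m, hm⟩ := (mem_filter.1 he).2
      obtain ⟨u, rfl⟩ := Sym2.mem_iff_exists.1 hm
      exact ⟨(X m, u), by simp, rfl⟩
    · rw [card_product, card_univ, Fintype.card_fin]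
      exact Nat.mul_le_mul_right _ (card_image_le.trans (by simp))
  refine le_trans ?_ ((mu_none ha hy (by linarith) _ hF).trans (P_mono _ fun π h m v a => ?_))
  · refine le_trans ?_ (pow_le_pow_of_le_one (by linarith) (by linarith) hF)
    rw [show -(6 * c) = (3 * n : ℕ) * -(2 * (c / n)) by push_cast; field_simp; ring,
      Real.exp_nat_mul]
    gcongr
    rw [Real.exp_neg, inv_le_iff_one_le_mul₀ (Real.exp_pos _)]
    have := Real.add_one_le_exp (2 * (c / n))
    nlinarith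
  · obtain ⟨h1, h2⟩ := proc_adj.1 a
    exact not_lt.2 (h _ (mem_filter.2 ⟨mem_univ _, m, Sym2.mem_mk_left _ _⟩)) h2

end

end Pool.Agent.Lib.MP_4b2155_pr.Q
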