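import Pool.Agent.Lib.MP_4b2155_pr.Q.Est
import Pool.Agent.Lib.MP_4b2155_pr.Main

set_option autoImplicit false

namespace Pool.Agent.Lib.MP_4b2155_pr.Q

open Finset Pool.Agent.Lib.MP_ad359d_co FP Filter Topology

noncomputable section

variable {n k : ℕ}

theorem sp_pairs {G : SimpleGraph (Fin n)} {x : ℝ} (h : Sp G x) {L : ℕ} (hL : 0 < L)
    (hx : 2 * (L : ℝ) ≤ x) :
    cnt univ (fun a : Fin n × Fin n => G.Adj a.1 a.2) ≤ 80 * L * ((n / L + 1) * (n / L + 1)) := by
  classical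
  have blk : ∀ q, #(univ.filter fun v : Fin n => (v : ℕ) / L = q) ≤ L := fun q => by
    refine (card_le_card_of_injOn (t := range L) (fun v : Fin n => (v : ℕ) % L)
      (fun v _ => mem_coe.2 (mem_range.2 (Nat.mod_lt _ hL))) fun a ha b hb e => Fin.ext ?_).trans
      (card_range L).le
    have e : (a : ℕ) % L = b % L := e
    rw [← Nat.div_add_mod a L, ← Nat.div_add_mod b L, (mem_filter.1 ha).2, (mem_filter.1 hb).2, e]
  rw [cnt_eq, ← card_range (n / L + 1), ← card_product]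
  refine card_le_mul_card_image_of_maps_to (f := fun a : Fin n × Fin n => ((a.1 : ℕ) / L, (a.2 : ℕ) / L))
    (fun a _ => by
      simp only [mem_product, mem_range, Nat.lt_succ_iff]
      exact ⟨Nat.div_le_div_right a.1.2.le, Nat.div_le_div_right a.2.2.le⟩) _ fun q _ => ?_
  set X := (univ.filter fun v : Fin n => (v : ℕ) / L = q.1) ∪
    univ.filter fun v : Fin n => (v : ℕ) / L = q.2 with hX
  have h1 : #X ≤ 2 * L := (card_union_le _ _).trans (by have := blk q.1; have := blk q.2; omega)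
  have h2 : ∑ v ∈ X, cnt X (G.Adj v) ≤ 80 * L := by
    rcases X.eq_empty_or_nonempty with e | e
    · simp [e]
    · have := h X e (le_trans (by exact_mod_cast h1) hx); omega
  refine le_trans ?_ h2
  simp only [cnt_eq]
  rw [← card_sigma]
  refine card_le_card_of_injOn (fun a => ⟨a.1, a.2⟩) (fun a ha => ?_) fun a _ b _ e => ?_
  · simp only [coe_filter, mem_filter, mem_univ, true_and, Set.mem_ofPred_eq, Prod.ext_iff] at ha
    simp [hX, ha.1, ha.2.1, ha.2.2]
  · simpa [Prod.ext_iff] using e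

theorem min_le_pairs (π : Ord n) (t : ℕ) :
    min (n.choose 2) t ≤ cnt univ fun a : Fin n × Fin n => (proc π t).Adj a.1 a.2 := by
  classical
  refine le_trans ?_ (cnt_le_of_inj (s := univ) (p := fun e : Ed n => (π e : ℕ) < t)
    (fun e => (e.1.inf, e.1.sup)) ?_ fun e _ e' _ _ _ h =>
      Subtype.ext (Sym2.inf_eq_inf_and_sup_eq_sup.1 (Prod.mk.inj h)))
  · rw [← Fin.card_filter_val_lt, ← cnt_eq]
    exact cnt_le_of_inj π.symm (fun a _ h => ⟨mem_univ _, by simpa using h⟩)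
      fun a _ b _ _ _ h => π.symm.injective h
  · rintro ⟨e, h0⟩ - he
    refine ⟨mem_univ _, ?_⟩
    induction e using Sym2.ind with
    | _ u v =>
      have a : (proc π t).Adj u v := proc_adj.2 ⟨h0, he⟩
      rcases le_total u v with h | h <;> simp [h, a, a.symm]

theorem Bil.restrict {K : ℕ} {G : SimpleGraph (Fin n)} {V : Fin K → Set (Fin n)} (h : Bil G V)
    (hk : 3 ≤ k) (hK : k ≤ K) (hV : 3 * K < (⋃ i, V i).ncard) :
    ∃ W : Fin k → Set (Fin n), Col G W := by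
  obtain ⟨l, hl⟩ : ∃ l, 4 ≤ (V l).ncard := by
    by_contra hc
    push Not at hc
    have := (Set.ncard_iUnion_le_of_fintype V).trans
      (sum_le_card_nsmul _ _ 3 fun c _ => Nat.lt_succ_iff.1 (hc c))
    simp only [card_univ, Fintype.card_fin, smul_eq_mul] at this
    omega
  set φ : Fin k → Fin K := fun i => Equiv.swap (Fin.castLE hK ⟨0, by omega⟩) l (Fin.castLE hK i)
  have hφ : Function.Injective φ := (Equiv.injective _).comp (Fin.castLE_injective hK)
  refine ⟨fun i => V (φ i), ⟨⟨fun i => h.ind _, fun i j u hu hv => hφ (h.dis _ _ u hu hv)⟩,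
    fun i => h.ne _, fun i j hij => h.con _ _ fun e => hij (hφ e)⟩,
    hl.trans (Set.ncard_le_ncard fun u hu => Set.mem_iUnion.2 ⟨⟨0, by omega⟩, ?_⟩)⟩
  simpa [φ] using hu

theorem ev_choose (a : ℕ) : ∀ᶠ n : ℕ in atTop,
    (n : ℝ) * n / 4 + a * n ≤ (n.choose 2 : ℕ) := by
  filter_upwards [ev_ge (4 * a + 2)] with n h
  have : (0 : ℝ) ≤ n := Nat.cast_nonneg _
  rw [Nat.cast_choose_two]
  nlinarith

theorem exi (hk : 3 ≤ k) : ∃ C : ℕ, 1 ≤ C ∧ ∀ θ : ℝ, 0 < θ → ∀ᶠ n : ℕ in atTop,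
    (mu n).P (fun π => ¬ ∃ t ≤ C * n, ∃ V : Fin k → Set (Fin n), Col (proc π t) V) ≤ θ := by
  obtain ⟨K, ⟨x, l, h⟩, h1, h2⟩ :=
    (ev_HK.and ((eventually_ge_atTop 41).and (eventually_ge_atTop k))).exists
  have x0 : 1 ≤ x := by linarith [h.h1, h.lx]
  have k0 : (1 : ℝ) ≤ K := by linarith [h.xk]
  obtain ⟨q, rfl⟩ : ∃ q, K = q + 40 := ⟨K - 40, by omega⟩
  obtain ⟨c, hc, hev⟩ := h.main one_pos
  set K := q + 40
  set ε : ℝ := 2 / (K * x) with hε
  have ε0 : 0 < ε := by positivity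
  have ε1 : ε ≤ 2 := by rw [hε, div_le_iff₀ (by positivity)]; nlinarith
  refine ⟨⌈80 * (4 / ε + 1) ^ 2⌉₊ + 1, by omega, fun θ hθ => ?_⟩
  set C := ⌈80 * (4 / ε + 1) ^ 2⌉₊
  have t := tendsto_one_div_atTop_nhds_zero_nat.add (tend0 4 hc)
  rw [add_zero] at t
  filter_upwards [hev, t.eventually_le_const hθ, ev_ge ((4 + 3 * K) / ε), ev_choose C,
    eventually_gt_atTop 0] with n a1 a2 a3 a4 a5
  have n0 : (0 : ℝ) < n := by exact_mod_cast a5
  rw [div_le_iff₀' ε0] at a3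
  rw [P_not, sub_le_comm]
  refine (sub_le_sub_left a2 1).trans (a1.trans ?_)
  rw [prob_eq]
  refine P_mono _ fun π ⟨t, ⟨V, hV⟩, hS, _⟩ => ⟨t, ?_, (bil_iff.1 hV).restrict hk h2 ?_⟩
  · have l1 : ε * n / 2 - 1 ≤ ⌊ε * n / 2⌋₊ := (Nat.sub_one_lt_floor _).le
    have l2 : (⌊ε * n / 2⌋₊ : ℝ) ≤ ε * n / 2 := Nat.floor_le (by positivity)
    set L := ⌊ε * n / 2⌋₊
    have l0 : (0 : ℝ) < L := by linarith
    have b1 := (min_le_pairs π t).trans (sp_pairs hS (L := L) (by exact_mod_cast l0) (by linarith))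
    have b2 : ((n / L : ℕ) : ℝ) ≤ 4 / ε := Nat.cast_div_le.trans (by
      rw [div_le_div_iff₀ l0 ε0]; linarith)
    have b3 : 80 * L * ((n / L + 1) * (n / L + 1)) ≤ C * n := by
      have : (L : ℝ) ≤ n := by nlinarith
      have : ((80 * L * ((n / L + 1) * (n / L + 1)) : ℕ) : ℝ) ≤ (C * n : ℕ) := by
        push_cast
        calc _ ≤ 80 * (n : ℝ) * ((4 / ε + 1) * (4 / ε + 1)) := by gcongr
          _ = 80 * (4 / ε + 1) ^ 2 * n := by ring
          _ ≤ _ := by gcongr; exact Nat.le_ceil _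
      exact_mod_cast this
    have b4 : C * n < n.choose 2 := by
      have : ((C * n : ℕ) : ℝ) < (n.choose 2 : ℕ) := by
        push_cast; have : 0 < (n : ℝ) * n / 4 := by positivity
        linarith
      exact_mod_cast this
    rw [add_mul]; omega
  · have := hV.large h1 le_rfl hS
    have : ((3 * K : ℕ) : ℝ) < (⋃ i, V i).ncard := by push_cast; linarith
    exact_mod_cast this

theorem deg_sum (π : Ord n) (t : ℕ) : ∑ v, {w | (proc π t).Adj v w}.ncard ≤ 2 * t := by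
  classical
  have h1 := SimpleGraph.sum_degrees_eq_twice_card_edges (proc π t)
  have h2 : (proc π t).edgeSet.ncard ≤ t :=
    (ncard_le_cnt _ univ fun e he => ⟨he, fun _ => mem_univ _⟩).trans (cnt_lt π t _)
  rw [← SimpleGraph.coe_edgeFinset, Set.ncard_coe_finset] at h2
  refine le_trans (le_of_eq (sum_congr rfl fun v _ => ?_)) (h1.le.trans (by omega))
  rw [← SimpleGraph.card_neighborFinset_eq_degree, ← Set.ncard_coe_finset,
    SimpleGraph.coe_neighborFinset]
  rfl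

theorem deg_cnt (π : Ord n) (t J : ℕ) (S : Set (Fin n))
    (h : ∀ v ∈ S, J ≤ {w | (proc π t).Adj v w}.ncard) : J * S.ncard ≤ 2 * t := by
  lift S to Finset (Fin n) using Set.toFinite S
  rw [Set.ncard_coe_finset, mul_comm]
  exact (card_nsmul_le_sum S _ J h).trans ((sum_le_sum_of_subset (subset_univ _)).trans (deg_sum π t))

end

end Pool.Agent.Lib.MP_4b2155_pr.Q
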