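import Pool.Agent.Lib.MP_4b2155_pr.Q.Exi

set_option autoImplicit false

namespace Pool.Agent.Lib.MP_4b2155_pr.Q

open Finset Pool.Agent.Lib.MP_ad359d_co FP

noncomputable section

variable {n : ℕ}

def NoC (k : ℕ) (π : Ord n) (s : ℕ) : Prop :=
  ∀ r < s, ∀ W : Fin k → Set (Fin n), ¬ Col (proc π r) W

def Low (k T : ℕ) (Q : SimpleGraph (Fin n) → Prop) (j : ℕ) (u : Fin n) (π : Ord n) : Prop :=
  ∃ s ≤ T, NoC k π s ∧ Q (proc π s) ∧ ∃ V : Fin k → Set (Fin n), MinC (proc π s) V ∧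
    u ∈ ⋃ i, V i ∧ {w | (proc π s).Adj u w}.ncard ≤ j

def Act (k m T : ℕ) (Q : SimpleGraph (Fin n) → Prop) (u : Fin n) (π : Ord n) : Prop :=
  ∃ s ≤ T, NoC k π s ∧ Q (proc π s) ∧ Active k m (proc π s) u

variable {k m T : ℕ} {Q : SimpleGraph (Fin n) → Prop} {π π' : Ord n} {u v : Fin n}

theorem low_step (hQ : ∀ G G', G' ≤ G → Q G → Q G')
    (hL : ∀ G (V : Fin k → Set (Fin n)), Q G → Col G V → m < (⋃ i, V i).ncard) {j s : ℕ}
    {h : s(u, v) ∈ (⊤ : SimpleGraph (Fin n)).edgeSet} (mv : Mv π π' ⟨_, h⟩) (hT : T ≤ π ⟨_, h⟩)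
    (hs : s ≤ T) (h1 : NoC k π' s) (h2 : Q (proc π' s)) {V : Fin k → Set (Fin n)}
    (h3 : MinC (proc π' s) V) (h4 : u ∈ ⋃ i, V i) (h5 : {w | (proc π' s).Adj u w}.ncard ≤ j + 1)
    (h6 : (proc π' s).Adj u v) : Low k T Q j u π ∨ Act k m T Q u π ∨ Act k m T Q v π := by
  classical
  have h7 : (π' ⟨_, h⟩ : ℕ) < s := (proc_adj.1 h6).2
  have a1 : ∀ r, (π' ⟨_, h⟩ : ℕ) ≤ r → r < s → proc π r ≤ proc π' (r + 1) ∧
      ∀ a b, (proc π' (r + 1)).Adj a b → (proc π r).Adj a b ∨ s(a, b) = s(u, v) := fun r r1 r2 => by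
    have l := mv.late r1 (by omega)
    refine ⟨proc_le fun e he => (l e).2 (Or.inl he), fun a b hab => ?_⟩
    obtain ⟨b1, b2⟩ := proc_adj.1 hab
    exact ((l _).1 b2).imp (fun b3 => proc_adj.2 ⟨b1, b3⟩) (congrArg Subtype.val)
  have a2 : ∀ r < s, proc π r ≤ proc π' s → {w | (proc π r).Adj u w}.ncard ≤ j := fun r r1 r2 => by
    refine Nat.lt_succ_iff.1 (lt_of_lt_of_le (Set.ncard_lt_ncard ⟨fun w hw => r2 hw, fun hc => ?_⟩) h5)
    have := (proc_adj.1 (hc h6)).2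
    omega
  by_cases hc : ∃ r, r + 1 < s ∧ ∃ W : Fin k → Set (Fin n), Col (proc π r) W
  · obtain ⟨b1, W, b2⟩ := Nat.find_spec hc
    set r := Nat.find hc
    have b3 : (π' ⟨_, h⟩ : ℕ) ≤ r := by
      by_contra b
      have e := mv.early (not_le.1 b).le
      exact h1 r (by omega) W (le_antisymm (proc_le fun e' => (e e').2) (proc_le fun e' => (e e').1)
        ▸ b2 : Col (proc π' r) W)
    obtain ⟨b4, b5⟩ := a1 r b3 (by omega)
    obtain ⟨W', b6⟩ := exists_min b2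
    have b7 := b4.trans (proc_mono π' b1.le)
    exact Or.inl ⟨r, by omega, fun r' hr W hW => Nat.find_min hc hr ⟨by omega, W, hW⟩,
      hQ _ _ b7 h2, W', b6, del_mem b4 b5 b6.1 (h1 _ b1 W'), a2 r (by omega) b7⟩
  · obtain ⟨s, rfl⟩ : ∃ s', s = s' + 1 := ⟨s - 1, by omega⟩
    obtain ⟨b4, b5⟩ := a1 s (by omega) (by omega)
    have b1 : NoC k π s := fun r hr W hW => hc ⟨r, by omega, W, hW⟩
    have b2 := hQ _ _ b4 h2
    rcases del_min (m := m) b4 b5 h3 (by have := hL _ V h2 h3.1; omega) with b | b | b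
    · exact Or.inl ⟨s, by omega, b1, b2, V, b, h4, a2 s (by omega) b4⟩
    · exact Or.inr (Or.inl ⟨s, by omega, b1, b2, b⟩)
    · exact Or.inr (Or.inr ⟨s, by omega, b1, b2, b⟩)

theorem Col.nbr (hk : 3 ≤ k) {G : SimpleGraph (Fin n)} {V : Fin k → Set (Fin n)} (h : Col G V)
    (hu : u ∈ ⋃ i, V i) : ∃ v, G.Adj u v := by
  obtain ⟨i, hi⟩ := Set.mem_iUnion.1 hu
  obtain ⟨b, hb, -⟩ := third hk i i
  obtain ⟨w, -, a⟩ := h.1.nbr hb.symm hi
  exact ⟨w, a⟩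

theorem low_sum (hk : 3 ≤ k) (hQ : ∀ G G', G' ≤ G → Q G → Q G')
    (hL : ∀ G (V : Fin k → Set (Fin n)), Q G → Col G V → m < (⋃ i, V i).ncard) {ρ : ℝ}
    (hT : T < n.choose 2) (h1 : 1 ≤ ρ) (hρ : (T : ℝ) * n ≤ ρ * ((n.choose 2 : ℕ) - T)) (j : ℕ) :
    ∑ u, (mu n).P (Low k T Q j u) ≤ (3 * ρ) ^ j * ∑ u, (mu n).P (Act k m T Q u) := by
  have h0 : (0 : ℝ) < (n.choose 2 : ℕ) - T := sub_pos.2 (by exact_mod_cast hT)
  have a0 : 0 ≤ ∑ u, (mu n).P (Act k m T Q u) := sum_nonneg fun _ _ => P_nonneg _ _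
  induction j with
  | zero =>
    refine le_trans (le_of_eq (sum_eq_zero fun u _ => P_false _ ?_)) (by positivity)
    rintro π ⟨s, -, -, -, V, a1, a2, a3⟩
    obtain ⟨v, a⟩ := a1.1.nbr hk a2
    exact absurd ((Set.ncard_pos (s := {w | (proc π s).Adj u w})).2 ⟨v, a⟩) (by omega)
  | succ j ih =>
    have l0 : 0 ≤ ∑ u, (mu n).P (Low k T Q j u) := sum_nonneg fun _ _ => P_nonneg _ _
    have key : ∀ u : Fin n, ((n.choose 2 : ℕ) - T : ℝ) * (mu n).P (Low k T Q (j + 1) u) ≤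
        ∑ v, T * ((mu n).P (Low k T Q j u) + ((mu n).P (Act k m T Q u)
          + (mu n).P (Act k m T Q v))) := fun u => by
      set E : Fin n → Ord n → Prop := fun v π => ∃ s ≤ T, NoC k π s ∧ Q (proc π s) ∧
        ∃ V : Fin k → Set (Fin n), MinC (proc π s) V ∧ u ∈ ⋃ i, V i ∧
          {w | (proc π s).Adj u w}.ncard ≤ j + 1 ∧ (proc π s).Adj u v with hE
      have b1 : (mu n).P (Low k T Q (j + 1) u) ≤ ∑ v, (mu n).P (E v) :=
        le_trans (P_mono _ fun π ⟨s, a1, a2, a3, V, a4, a5, a6⟩ => by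
          obtain ⟨v, a⟩ := a4.1.nbr hk a5
          exact ⟨v, mem_univ _, s, a1, a2, a3, V, a4, a5, a6, a⟩) (P_exists_le _ univ E)
      refine (mul_le_mul_of_nonneg_left b1 h0.le).trans ?_
      rw [mul_sum]
      refine sum_le_sum fun v _ => ?_
      by_cases h : s(u, v) ∈ (⊤ : SimpleGraph (Fin n)).edgeSet
      · refine (mu_del ⟨_, h⟩ (fun π π' mv hT ⟨s, a1, a2, a3, V, a4, a5, a6, a⟩ =>
          low_step hQ hL mv hT a1 a2 a3 a4 a5 a6 a) fun π ⟨s, a1, _, _, _, _, _, _, a⟩ =>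
            lt_of_lt_of_le (proc_adj.1 a).2 a1).trans ?_
        exact mul_le_mul_of_nonneg_left ((P_or_le _ _ _).trans (add_le_add le_rfl (P_or_le _ _ _)))
          (Nat.cast_nonneg _)
      · rw [P_false _ fun π ⟨s, _, _, _, _, _, _, _, a⟩ => h (proc_adj.1 a).1, mul_zero]
        exact mul_nonneg (Nat.cast_nonneg _)
          (add_nonneg (P_nonneg _ _) (add_nonneg (P_nonneg _ _) (P_nonneg _ _)))
    have s1 := sum_le_sum fun u (_ : u ∈ univ) => key u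
    simp only [← mul_sum, sum_add_distrib, sum_const, card_univ, Fintype.card_fin,
      nsmul_eq_mul] at s1
    have p1 : 1 ≤ (3 * ρ) ^ j := one_le_pow₀ (by linarith)
    refine le_of_mul_le_mul_left (s1.trans ?_) h0
    generalize ∑ u, (mu n).P (Act k m T Q u) = a at *
    generalize ∑ u, (mu n).P (Low k T Q j u) = l at *
    calc _ = T * n * (l + 2 * a) := by ring
      _ ≤ ρ * ((n.choose 2 : ℕ) - T) * (3 * ((3 * ρ) ^ j * a)) := by gcongr; nlinarith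
      _ = _ := by ring

theorem low_base (hQ : ∀ G G', G' ≤ G → Q G → Q G')
    (hL : ∀ G (V : Fin k → Set (Fin n)), Q G → Col G V → m < (⋃ i, V i).ncard) {J : ℕ}
    (hJ : 4 * T ≤ (J + 1) * m) (h1 : ∃ t ≤ T, ∃ V : Fin k → Set (Fin n), Col (proc π t) V)
    (h2 : Q (proc π T)) : m ≤ 2 * cnt univ fun u => Low k T Q J u π := by
  classical
  obtain ⟨a1, V, a2⟩ := Nat.find_spec h1
  set s := Nat.find h1
  obtain ⟨W, a3⟩ := exists_min a2
  have a4 := hQ _ _ (proc_mono π a1) h2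
  have a5 := hL _ W a4 a3.1
  have a6 := deg_cnt π s (J + 1) ((⋃ i, W i) \ {u | Low k T Q J u π}) fun u hu => not_le.1 fun h =>
    hu.2 ⟨s, a1, fun r hr W hW => Nat.find_min h1 hr ⟨by omega, W, hW⟩, a4, W, a3, hu.1, h⟩
  have a7 := Set.ncard_le_ncard_sdiff_add_ncard (⋃ i, W i) {u | Low k T Q J u π}
  have a8 : 2 * ((⋃ i, W i) \ {u | Low k T Q J u π}).ncard ≤ m :=
    Nat.le_of_mul_le_mul_left (c := J + 1) (by nlinarith) (Nat.succ_pos _)
  rw [ncard_cnt {u | Low k T Q J u π}] at a7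
  simp only [Set.mem_ofPred_eq] at a7
  omega

def AB (k m : ℕ) (π : Ord n) (s : ℕ) : Set (Fin n) := {u | ∃ r < s, Active k m (proc π r) u}

def Act' (k m T w : ℕ) (Q : SimpleGraph (Fin n) → Prop) (u : Fin n) (π : Ord n) : Prop :=
  ∃ s ≤ T, NoC k π s ∧ Q (proc π s) ∧ Active k m (proc π s) u ∧ u ∉ AB k m π s ∧
    (AB k m π s).ncard ≤ w

theorem act_cnt (hQ : ∀ G G', G' ≤ G → Q G → Q G') {w : ℕ} (hw : w ≤ n) (π : Ord n) :
    w * cnt univ (fun u => Act k m T Q u π) ≤ n * cnt univ fun u => Act' k m T w Q u π := by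
  classical
  have first : ∀ u s, Active k m (proc π s) u → ∃ r ≤ s, Active k m (proc π r) u ∧
      u ∉ AB k m π r := fun u s h =>
    have ex : ∃ s, Active k m (proc π s) u := ⟨s, h⟩
    ⟨Nat.find ex, Nat.find_min' ex h, Nat.find_spec ex, fun ⟨_, h1, h2⟩ => Nat.find_min ex h1 h2⟩
  by_cases hc : ∀ u, Act k m T Q u π → Act' k m T w Q u π
  · exact Nat.mul_le_mul hw (cnt_mono subset_rfl fun u _ => hc u)
  push Not at hc
  obtain ⟨u, ⟨s, a1, a2, a3, a4⟩, a5⟩ := hc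
  obtain ⟨r, b1, b2, b3⟩ := first u s a4
  have ex : ∃ r, w < (AB k m π r).ncard := ⟨r, not_le.1 fun h => a5 ⟨r, by omega,
    fun r' hr => a2 r' (by omega), hQ _ _ (proc_mono π b1) a3, b2, b3, h⟩⟩
  have b4 : Nat.find ex ≤ r := Nat.find_min' ex (not_le.1 fun h => a5 ⟨r, by omega,
    fun r' hr => a2 r' (by omega), hQ _ _ (proc_mono π b1) a3, b2, b3, h⟩)
  have b5 := Nat.find_spec ex
  rw [ncard_cnt] at b5
  have b6 := b5.trans_le (cnt_mono (q := fun u => Act' k m T w Q u π) subset_rfl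
    fun u _ ⟨t, c1, c2⟩ => by
      obtain ⟨t', c3, c4, c5⟩ := first u t c2
      exact ⟨t', by omega, fun r' hr => a2 r' (by omega), hQ _ _ (proc_mono π (by omega)) a3, c4, c5,
        not_lt.1 (Nat.find_min ex (by omega))⟩)
  rw [mul_comm]
  exact Nat.mul_le_mul ((cnt_le_card _ _).trans (by simp)) b6.le

theorem act_lower (hk : 3 ≤ k) (hQ : ∀ G G', G' ≤ G → Q G → Q G')
    (hL : ∀ G (V : Fin k → Set (Fin n)), Q G → Col G V → m < (⋃ i, V i).ncard) {ρ : ℝ}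
    (hT : T < n.choose 2) (h1 : 1 ≤ ρ) (hρ : (T : ℝ) * n ≤ ρ * ((n.choose 2 : ℕ) - T)) {J w : ℕ}
    (hJ : 4 * T ≤ (J + 1) * m) (hw : w ≤ n) :
    w * (m * (mu n).P fun π => (∃ t ≤ T, ∃ V : Fin k → Set (Fin n), Col (proc π t) V) ∧
      Q (proc π T)) ≤ 2 * (3 * ρ) ^ J * (n * ∑ u, (mu n).P (Act' k m T w Q u)) := by
  have a1 : m * (mu n).P (fun π => (∃ t ≤ T, ∃ V : Fin k → Set (Fin n), Col (proc π t) V) ∧
      Q (proc π T)) ≤ 2 * ∑ u, (mu n).P (Low k T Q J u) := by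
    simp only [P]
    rw [← E_sum, ← E_mul_left, ← E_mul_left]
    refine E_mono _ fun π => ?_
    rw [← cnt_cast]
    by_cases h : (∃ t ≤ T, ∃ V : Fin k → Set (Fin n), Col (proc π t) V) ∧ Q (proc π T)
    · rw [ind_true h, mul_one]; exact_mod_cast low_base hQ hL hJ h.1 h.2
    · rw [ind_false h, mul_zero]; positivity
  have a2 : w * ∑ u, (mu n).P (Act k m T Q u) ≤ n * ∑ u, (mu n).P (Act' k m T w Q u) := by
    simp only [P]
    rw [← E_sum, ← E_sum, ← E_mul_left, ← E_mul_left]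
    refine E_mono _ fun π => ?_
    rw [← cnt_cast, ← cnt_cast]
    exact_mod_cast act_cnt hQ hw π
  have a3 := low_sum hk hQ hL hT h1 hρ J
  calc _ ≤ w * (2 * ((3 * ρ) ^ J * ∑ u, (mu n).P (Act k m T Q u))) :=
        mul_le_mul_of_nonneg_left (by linarith) (Nat.cast_nonneg _)
    _ = 2 * (3 * ρ) ^ J * (w * ∑ u, (mu n).P (Act k m T Q u)) := by ring
    _ ≤ _ := by gcongr

end

end Pool.Agent.Lib.MP_4b2155_pr.Q
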