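import Pool.Agent.Lib.MP_4b2155_pr.Q.Gad

set_option autoImplicit false

namespace Pool.Agent.Lib.MP_4b2155_pr.Q

open Set

variable {α : Type} {k : ℕ} {G G' : SimpleGraph α} {V : Fin k → Set α} {C D : Set α}
  {X : Fin 3 → α} {γ : Fin 3 → Fin k} {ρ : Fin 3 → Fin k → α} {u v : α} {m : Fin 3}

def ext (V : Fin k → Set α) (X : Fin 3 → α) (γ : Fin 3 → Fin k) (l : Fin k) : Set α :=
  V l ∪ {v | ∃ m, γ m = l ∧ X m = v}

theorem ext_X (m : Fin 3) : X m ∈ ext V X γ (γ m) := Or.inr ⟨m, rfl, rfl⟩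

theorem Gad.off (g : Gad G V C D X γ ρ) {l : Fin k} (h : v ∈ V l) : v ∉ range X :=
  fun ⟨m, e⟩ => g.notMem m l (e ▸ h)

theorem Gad.dis (g : Gad G V C D X γ ρ) (i j : Fin k) (u : α) (hi : u ∈ ext V X γ i)
    (hj : u ∈ ext V X γ j) : i = j := by
  rcases hi with hi | ⟨m, rfl, rfl⟩
  · rcases hj with hj | ⟨m, -, rfl⟩
    exacts [g.near.dis i j u hi hj, absurd hi (g.notMem m i)]
  · rcases hj with hj | ⟨m', rfl, e⟩
    exacts [absurd hj (g.notMem m j), congrArg γ (g.inj e).symm]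

theorem Gad.nb' (g : Gad G V C D X γ ρ) (up : Up G G' X ρ) (a : G'.Adj (X m) v) :
    ∃ c, c ≠ γ m ∧ v ∈ ext V X γ c ∧ (c = γ (m + 2) → v = X (m + 2)) := by
  rcases g.nb up a with ⟨c, rfl⟩ | rfl
  · by_cases h1 : c = γ (m + 2)
    · rw [h1, g.tri]
      exact ⟨_, g.gne (by fin_cases m <;> decide), ext_X _, fun _ => rfl⟩
    by_cases h2 : c = γ m
    · by_cases h3 : m = 0
      · subst h3
        exact ⟨γ 1, g.gne (by decide), Or.inl (h2 ▸ g.pV), fun e => absurd e (g.gne (by decide))⟩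
      · exact absurd (by rw [h2, g.dum m h3]) a.ne
    · exact ⟨c, h2, Or.inl (g.ter m c h2 h1), fun e => absurd e h1⟩
  · exact ⟨_, g.gne (by fin_cases m <;> decide), ext_X _,
      fun e => absurd e (g.gne (by fin_cases m <;> decide))⟩

theorem Gad.st (g : Gad G V C D X γ ρ) (up : Up G G' X ρ) : St G' (ext V X γ) := by
  have key : ∀ m, ∀ v ∈ ext V X γ (γ m), ¬ G'.Adj (X m) v := fun m v hv a => by
    obtain ⟨c, h1, h2, -⟩ := g.nb' up a
    exact h1 (g.dis _ _ v h2 hv)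
  refine ⟨fun l u hu v hv a => ?_, g.dis⟩
  rcases hu with hu | ⟨m, rfl, rfl⟩
  · rcases hv with hv | ⟨m, rfl, rfl⟩
    · exact g.near.ind l u hu v hv (up.off (g.off hu) (g.off hv) a)
    · exact key m u (Or.inl hu) a.symm
  · exact key m v hv a

theorem Gad.bil (g : Gad G V C D X γ ρ) (lo : G ≤ G') (up : Up G G' X ρ)
    (full : ∀ m c, X m ≠ ρ m c → G'.Adj (X m) (ρ m c)) : Bil G' (ext V X γ) := by
  have adj : ∀ m c l, ρ m c ∈ V l → G'.Adj (X m) (ρ m c) := fun m c l h =>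
    full m c fun e => g.notMem m l (e ▸ h)
  have key : ∀ i j, i ≠ j → (∀ u ∈ V i ∪ V j, ∀ v ∈ V i ∪ V j,
      R G' (ext V X γ i ∪ ext V X γ j) u v) → Con G' (ext V X γ i ∪ ext V X γ j) := by
    intro i j hij hb
    set S := ext V X γ i ∪ ext V X γ j with hS
    have att : ∀ m c, c ≠ γ m → ext V X γ (γ m) ⊆ S → ext V X γ c ⊆ S →
        ∃ w ∈ V (γ m) ∪ V c, R G' S (X m) w := fun m c h1 h2 h3 => by
      by_cases e : c = γ (m + 2)
      · have t := g.ter (m + 2) (γ m) (g.gne (by fin_cases m <;> decide))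
          (g.gne (by fin_cases m <;> decide))
        exact ⟨_, Or.inl t, (R.one (h2 (ext_X m)) (h3 (e ▸ ext_X _)) (g.adjX full m)).trans
          (R.one (h3 (e ▸ ext_X _)) (h2 (Or.inl t)) (adj _ _ _ t))⟩
      · have t := g.ter m c h1 e
        exact ⟨_, Or.inr t, R.one (h2 (ext_X m)) (h3 (Or.inl t)) (adj _ _ _ t)⟩
    obtain ⟨a, ha⟩ := g.near.ne i
    refine con_hub a fun u hu => ?_
    rcases hu with (hu | ⟨m, rfl, rfl⟩) | (hu | ⟨m, rfl, rfl⟩)
    · exact hb u (Or.inl hu) a (Or.inl ha)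
    · obtain ⟨w, hw, r⟩ := att m j hij.symm subset_union_left subset_union_right
      exact r.trans (hb w hw a (Or.inl ha))
    · exact hb u (Or.inr hu) a (Or.inl ha)
    · obtain ⟨w, hw, r⟩ := att m i hij subset_union_right subset_union_left
      exact r.trans (hb w hw.symm a (Or.inl ha))
  have sub : ∀ i j, V i ∪ V j ⊆ ext V X γ i ∪ ext V X γ j := fun i j =>
    union_subset_union subset_union_left subset_union_left
  have c10 : Con G' (ext V X γ (γ 1) ∪ ext V X γ (γ 0)) := by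
    refine key _ _ g.near.hij ?_
    have sC : C ⊆ _ := (subset_union_left.trans g.near.un.le).trans (sub _ _)
    have sD : D ⊆ _ := (subset_union_right.trans g.near.un.le).trans (sub _ _)
    have t := g.ter 0 (γ 1) (g.gne (by decide)) (g.gne (by decide))
    have hub : ∀ u ∈ V (γ 1) ∪ V (γ 0), R G' (ext V X γ (γ 1) ∪ ext V X γ (γ 0)) u (X 0) :=
      fun u hu => by
        rcases g.near.un.ge hu with h | h
        · exact ((g.near.cC u h _ g.pC).mono sC fun _ _ _ _ a => lo a).trans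
            (R.one (sC g.pC) (Or.inr (ext_X 0)) (adj _ _ _ g.pV).symm)
        · exact ((g.near.cD u h _ g.pD).mono sD fun _ _ _ _ a => lo a).trans
            (R.one (sD g.pD) (Or.inr (ext_X 0)) (adj _ _ _ t).symm)
    exact fun u hu v hv => (hub u hu).trans (hub v hv).symm
  refine ⟨g.st up, fun l => (g.near.ne l).mono subset_union_left, fun i j hij => ?_⟩
  by_cases h1 : (i, j) = (γ 1, γ 0)
  · obtain ⟨rfl, rfl⟩ := Prod.mk.inj h1; exact c10
  by_cases h2 : (i, j) = (γ 0, γ 1)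
  · obtain ⟨rfl, rfl⟩ := Prod.mk.inj h2; rw [union_comm]; exact c10
  exact key i j hij fun u hu v hv =>
    (g.near.con i j hij h1 h2 u hu v hv).mono (sub i j) fun _ _ _ _ a => lo a

theorem Gad.uc [Finite α] (g : Gad G V C D X γ ρ) (up : Up G G' X ρ) (hs : NoSub G V)
    {c : α → Fin k} (hc : ∀ l, ∀ u ∈ ext V X γ l, c u = l) {Y : Set α}
    (hY : Y ⊆ ⋃ l, ext V X γ l) (h : UC G' Y c) : Y.ncard ≤ k + 2 := by
  classical
  by_contra hcard
  have hk := g.hk
  have mem : ∀ u ∈ Y, u ∈ ext V X γ (c u) := fun u hu => by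
    obtain ⟨l, hl⟩ := mem_iUnion.1 (hY hu); rwa [hc l u hl]
  have hp : ∀ u ∈ Y, ∀ v ∈ Y, G'.Adj u v → c u ≠ c v := fun u hu v hv a e =>
    (g.st up).ind (c u) u (mem u hu) v (e ▸ mem v hv) a
  have b := uc_bil hp h (by omega)
  have cX : ∀ m, c (X m) = γ m := fun m => hc _ _ (ext_X m)
  by_cases h0 : ∀ m, X m ∉ Y
  · have off : ∀ u ∈ Y, u ∉ range X := fun u hu ⟨m, e⟩ => h0 m (e ▸ hu)
    have s : ∀ l, {u | u ∈ Y ∧ c u = l} ⊆ V l := fun l u hu =>
      (hu.2 ▸ mem u hu.1).resolve_right fun ⟨m, _, e⟩ => off u hu.1 ⟨m, e⟩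
    refine hs _ s ⟨⟨g.near.toSt.sub s le_rfl, b.ne, fun i j hij => (b.con i j hij).mono
      fun a ha b hb => up.off (off a (ha.elim And.left And.left))
        (off b (hb.elim And.left And.left))⟩, le_trans (by omega : 4 ≤ Y.ncard)
          (ncard_le_ncard fun u hu => mem_iUnion.2 ⟨c u, hu, rfl⟩)⟩
  have step : ∀ m, X m ∈ Y → X (m + 2) ∈ Y := fun m hm => by
    obtain ⟨w, hw, a⟩ := b.nbr (i := γ m) (j := γ (m + 2)) (g.gne (by fin_cases m <;> decide))
      ⟨hm, cX m⟩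
    obtain ⟨l, -, h2, h3⟩ := g.nb' up a
    exact h3 ((hc l w h2).symm.trans hw.2) ▸ hw.1
  have x0 : X 0 ∈ Y := by
    push Not at h0
    obtain ⟨m, hm⟩ := h0
    fin_cases m
    exacts [hm, step 1 hm, step 1 (step 2 hm)]
  have k1 : ∀ m, ∀ v ∈ Y, G'.Adj (X m) v → γ (m + 2) ≠
      Function.extend X (fun m => γ (m + 2)) c v := fun m v hv a => by
    by_cases e : ∃ m', X m' = v
    · obtain ⟨m', rfl⟩ := e
      rw [g.inj.extend_apply]
      exact g.gne fun e => a.ne (congrArg X (add_right_cancel e))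
    · rw [Function.extend_apply' _ _ _ e]
      obtain ⟨l, -, h2, h3⟩ := g.nb' up a
      exact fun e' => e ⟨_, (h3 ((hc l v h2).symm.trans e'.symm)).symm⟩
  have u1 := h (Function.extend X (fun m => γ (m + 2)) c) fun u hu v hv a => by
    by_cases e : ∃ m, X m = u
    · obtain ⟨m, rfl⟩ := e
      rw [g.inj.extend_apply]; exact k1 m v hv a
    by_cases e' : ∃ m, X m = v
    · obtain ⟨m, rfl⟩ := e'
      rw [g.inj.extend_apply]; exact (k1 m u hu a.symm).symm
    rw [Function.extend_apply' _ _ _ e, Function.extend_apply' _ _ _ e']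
    exact hp u hu v hv a
  have only : ∀ w ∈ Y, c w = γ 0 → w = X 0 := fun w hw e => by
    by_cases e' : ∃ m, X m = w
    · obtain ⟨m, rfl⟩ := e'
      rw [g.ginj ((cX m).symm.trans e)]
    · have := (u1 _ x0 w hw).1 ((cX 0).trans e.symm)
      rw [g.inj.extend_apply, Function.extend_apply' _ _ _ e', e] at this
      exact absurd this (g.gne (by decide))
  refine hcard ((ncard_le_ncard fun w hw => ?_).trans (g.cardN up 0))
  by_cases e : c w = γ 0
  · exact Or.inl (only w hw e)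
  · obtain ⟨y, hy, a⟩ := b.nbr (i := c w) (j := γ 0) e ⟨hw, rfl⟩
    exact Or.inr (only y hy.1 hy.2 ▸ a.symm)

end Pool.Agent.Lib.MP_4b2155_pr.Q
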