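import Pool.Agent.Lib.MP_4b2155_pr.Q.Ind
import Pool.Agent.Lib.MP_4b2155_pr.Q.Rot

set_option autoImplicit false

namespace Pool.Agent.Lib.MP_4b2155_pr.Q

open Finset Pool.Agent.Lib.MP_ad359d_co FP

noncomputable section

variable {n : ℕ}

def Viol (k m : ℕ) (π : Ord n) : Prop :=
  ∃ (τ : ℕ) (V : Fin k → Set (Fin n)), First π τ V ∧ m ≤ (⋃ i, V i).ncard + 3 ∧
    ∀ H : ((proc π τ).induce (⋃ i, V i)).Subgraph, UniqCol H.coe k → H.verts.ncard ≤ k + 2

def B0 (k m T M h : ℕ) (X : Fin 3 → Fin n) (γ : Fin 3 → Fin k) (ρ : Fin 3 → Fin k → Fin n)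
    (π : Ord n) (s : ℕ) : Prop :=
  s ≤ T ∧ NoC k π s ∧ (Tv (proc π s)).ncard ≤ M ∧ h + 3 * k ≤ s ∧ ∃ V C D,
    Gad (proc π s) V C D X γ ρ ∧ NoSub (proc π s) V ∧ m ≤ (⋃ i, V i).ncard + 3 ∧
      ∀ r < s, ∀ i c, ρ i c ∉ Set.range X → ¬ Active k m (proc π r) (ρ i c)

def FF {k : ℕ} (X : Fin 3 → Fin n) (ρ : Fin 3 → Fin k → Fin n) : Finset (Ed n) :=
  univ.filter fun e => ∃ i c, e.1 = s(X i, ρ i c)

variable {k m T M h : ℕ} {X : Fin 3 → Fin n} {γ : Fin 3 → Fin k} {ρ : Fin 3 → Fin k → Fin n}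
  {π π' : Ord n} {s : ℕ}

theorem card_FF (hd : ∀ i, i ≠ 0 → ρ i (γ i) = X i) : #(FF X ρ) ≤ 3 * k - 2 := by
  refine (card_ed_le _ (({(1, γ 1), (2, γ 2)}ᶜ : Finset (Fin 3 × Fin k)).image
    fun a => (X a.1, ρ a.1 a.2)) ?_).trans (card_image_le.trans ?_)
  · rintro ⟨e, h0⟩ he
    obtain ⟨i, c, rfl⟩ := (mem_filter.1 he).2
    refine ⟨_, mem_image.2 ⟨(i, c), mem_compl.2 fun h => h0 ?_, rfl⟩, rfl⟩
    simp only [mem_insert, mem_singleton, Prod.mk.injEq] at h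
    rcases h with ⟨rfl, rfl⟩ | ⟨rfl, rfl⟩ <;> exact (hd _ (by decide)).symm
  · rw [card_compl, card_pair (by simp)]; simp

theorem up_of {r r' : ℕ} (h : ∀ e, (π' e : ℕ) < r' → (π e : ℕ) < r ∨ e ∈ FF X ρ) :
    Up (proc π r) (proc π' r') X ρ := fun u v a => by
  obtain ⟨h1, h2⟩ := proc_adj.1 a
  exact (h _ h2).imp (fun h3 => proc_adj.2 ⟨h1, h3⟩) fun h3 => by simpa only [FF, mem_filter, mem_univ, true_and] using h3

theorem full_of {r : ℕ} (h : ∀ e ∈ FF X ρ, (π' e : ℕ) < r) (i : Fin 3) (c : Fin k)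
    (hne : X i ≠ ρ i c) : (proc π' r).Adj (X i) (ρ i c) :=
  proc_adj.2 ⟨hne, h _ (mem_filter.2 ⟨mem_univ _, i, c, rfl⟩)⟩

theorem ins_det (b : B0 k m T M h X γ ρ π s) (I : Ins π π' (FF X ρ) s h) (hm : 3 * k + 6 ≤ m) :
    (Viol k m π' ∨ ¬ Spa (proc π' (T + 3 * k)) m) ∧
      Vis (proc π' (h + 3 * k)) (M + 3 + 3 * k) X ρ := by
  obtain ⟨a1, a2, a3, a4, V, C, D, g, a5, a6, a7⟩ := b
  have hk := g.hk
  have hF := card_FF g.dum
  constructor
  · refine or_iff_not_imp_right.2 fun hS => ?_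
    have hS := not_not.1 hS
    have up := up_of fun e => (I.2.1 e).1
    have bil := g.bil (proc_le fun e he => (I.2.1 e).2 (Or.inl he)) up
      (full_of fun e he => (I.2.1 e).2 (Or.inr he))
    have sz : (⋃ i, V i).ncard ≤ (⋃ i, ext V X γ i).ncard :=
      Set.ncard_le_ncard (Set.iUnion_mono fun _ => Set.subset_union_left)
    refine ⟨_, ext V X γ, ⟨(coll_iff hk).2 ⟨bil, by omega⟩, fun r' hr W hW => ?_⟩, by omega,
      fun H hH => ?_⟩
    · obtain ⟨r, b1, b2, b3⟩ := I.1 r' hr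
      have hW := (coll_iff hk).1 hW
      exact g.no_early (proc_mono π b1.le) (proc_le b2) (up_of b3) (a2 r b1) (a7 r b1) hW
        (hW.large hk (hS.mono (proc_mono π' (by omega)))) hm
    · have : Nonempty (Fin k) := ⟨γ 0⟩
      have ex : ∀ u, (∃ l, u ∈ ext V X γ l) → ∃ l, u ∈ ext V X γ l := fun _ h => h
      choose! c hc using ex
      rw [← Set.ncard_image_of_injective _ Subtype.val_injective]
      refine g.uc up a5 (c := c) (fun l u hu => g.dis _ _ u (hc u ⟨l, hu⟩) hu)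
        (by rintro _ ⟨u, -, rfl⟩; exact u.2) ?_
      rintro c' h' _ ⟨u, hu, rfl⟩ _ ⟨v, hv, rfl⟩
      exact hH.2 (SimpleGraph.Coloring.mk (fun w => c w.1.1) fun {a b} hw e =>
          bil.ind _ _ (hc _ (Set.mem_iUnion.1 a.1.2)) _
            (e ▸ hc _ (Set.mem_iUnion.1 b.1.2)) (H.adj_sub hw))
        (SimpleGraph.Coloring.mk (fun w => c' w.1.1) fun {a b} hw =>
          h' _ ⟨_, a.2, rfl⟩ _ ⟨_, b.2, rfl⟩ (H.adj_sub hw)) ⟨u, hu⟩ ⟨v, hv⟩
  · exact g.vis (up_of fun e he => (I.2.1 e).1 (by omega))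
      (full_of fun e he => by have := I.2.2 e he; omega) a3

theorem ins_prob (hN : h ≤ n.choose 2) (hm : 3 * k + 6 ≤ m) :
    (h : ℝ) ^ (3 * k - 2) * (mu n).P (fun π => ∃ s, B0 k m T M h X γ ρ π s) ≤
      ((n.choose 2 : ℕ) : ℝ) ^ (3 * k - 2) * (mu n).P fun π =>
        (Viol k m π ∨ ¬ Spa (proc π (T + 3 * k)) m) ∧
          Vis (proc π (h + 3 * k)) (M + 3 + 3 * k) X ρ := by
  by_cases hd : ∀ i, i ≠ 0 → ρ i (γ i) = X i
  · obtain ⟨j, hj⟩ := Nat.exists_eq_add_of_le (card_FF hd)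
    have := (mu_insert hN (B0 k m T M h X γ ρ) (FF X ρ) fun π s b => ⟨by have := b.2.2.2.1; omega, by
      rintro ⟨e, h0⟩ he
      obtain ⟨i, c, rfl⟩ := (mem_filter.1 he).2
      obtain ⟨V, C, D, g, -⟩ := b.2.2.2.2
      exact not_lt.1 fun h => g.iso i _ (proc_adj.2 ⟨h0, h⟩)⟩).trans (mul_le_mul_of_nonneg_left
        (P_mono _ fun π' ⟨π, s, b, I⟩ => ins_det b I hm) (by positivity))
    rw [hj, pow_add, pow_add, mul_right_comm, mul_right_comm (_ ^ _) (_ ^ j)]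
    exact mul_le_mul this (by gcongr) (by positivity) (mul_nonneg (by positivity) (P_nonneg _ _))
  · rw [P_false _ fun π ⟨s, _, _, _, _, V, C, D, g, _⟩ => hd g.dum, mul_zero]
    exact mul_nonneg (by positivity) (P_nonneg _ _)

theorem ncard_pi {ι α : Type} [Fintype ι] (S : ι → Set α) :
    {f : ι → α | ∀ i, f i ∈ S i}.ncard = ∏ i, (S i).ncard := by
  simp only [← Nat.card_coe_set_eq]
  rw [← Nat.card_pi]
  exact Nat.card_congr (Equiv.subtypePiEquivPi (p := fun i a => a ∈ S i))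

theorem cnt_pi2 {ι κ α : Type} [Fintype ι] [Fintype κ] [Fintype α] [DecidableEq ι] [DecidableEq κ]
    (S : ι → κ → Set α) : cnt univ (fun f : ι → κ → α => ∀ i c, f i c ∈ S i c)
      = ∏ i, ∏ c, (S i c).ncard := by
  have h := ncard_pi fun i : ι => {f : κ → α | ∀ c, f c ∈ S i c}
  rw [ncard_cnt] at h
  exact h.trans (prod_congr rfl fun i _ => ncard_pi _)

theorem vis_cnt (G : SimpleGraph (Fin n)) (M : ℕ) :
    ∑ X : Fin 3 → Fin n, ∑ ρ : Fin 3 → Fin k → Fin n, ind (Vis G M X ρ)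
      ≤ (M : ℝ) ^ 3 * ((k + 2) ^ k) ^ 3 := by
  by_cases hM : (Tv G).ncard ≤ M
  · have h1 : ∀ X : Fin 3 → Fin n, ∑ ρ : Fin 3 → Fin k → Fin n, ind (Vis G M X ρ)
        ≤ ind (∀ i, X i ∈ Tv G) * ((k + 2) ^ k) ^ 3 := fun X => by
      by_cases h : ∀ i, X i ∈ Tv G ∧ (insert (X i) {v | G.Adj (X i) v}).ncard ≤ k + 2
      · rw [ind_true fun i => (h i).1, one_mul, ← cnt_cast]
        have h2 := cnt_pi2 fun (i : Fin 3) (_ : Fin k) => insert (X i) {v | G.Adj (X i) v}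
        have h3 := (cnt_mono (p := fun ρ : Fin 3 → Fin k → Fin n => Vis G M X ρ) subset_rfl
          fun ρ _ v i => (v.2 i).2.2).trans (h2.le.trans (prod_le_pow_card _ _ ((k + 2) ^ k)
            fun i _ => (prod_le_pow_card _ _ _ fun c _ => (h i).2).trans (by simp)))
        simp only [card_univ, Fintype.card_fin] at h3
        exact_mod_cast h3
      · rw [sum_eq_zero fun ρ _ => ind_false fun v => h fun i => ⟨(v.2 i).1, (v.2 i).2.1⟩]
        exact mul_nonneg (ind_nonneg _) (by positivity)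
    refine (sum_le_sum fun X _ => h1 X).trans ?_
    rw [← sum_mul, ← cnt_cast]
    have h2 := ncard_pi fun _ : Fin 3 => Tv G
    rw [ncard_cnt, prod_const, card_univ, Fintype.card_fin] at h2
    gcongr
    exact_mod_cast h2.le.trans (Nat.pow_le_pow_left hM 3)
  · rw [sum_eq_zero fun X _ => sum_eq_zero fun ρ _ => ind_false fun v => hM v.1]; positivity

structure QX (k m M w1 b1 w2 b2 : ℕ) (G : SimpleGraph (Fin n)) : Prop where
  spa : Spa G m
  e1 : Ex G w1 b1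
  e2 : Ex G w2 b2
  tv : (Tv G).ncard ≤ M

theorem ter_cnt {w w1 b1 b2 : ℕ} (hk : 3 ≤ k) (hX : Function.Injective X) (n1 : k * b1 + 3 < m)
    (n2 : 2 * w1 ≤ b1) (n3 : 2 * w + b2 < w1) (n4 : 2 * (h + 3 * k) + 3 ≤ m) {u : Fin n}
    (a : Act' k m T w (fun G => QX k m M w1 b1 (2 * w) b2 G ∧ ∀ i v, ¬ G.Adj (X i) v) u π) :
    ∃ γ : Fin 3 → Fin k, (w ^ (k - 2)) ^ 3 ≤ cnt univ fun ρ : Fin 3 → Fin k → Fin n =>
      ρ 0 (γ 0) = u ∧ ∃ s, B0 k m T M h X γ ρ π s := by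
  classical
  obtain ⟨s, a1, a2, ⟨q, iso⟩, ⟨V, a, t, C, D, nr, pC, pV, sz, ns⟩, a3, a4⟩ := a
  obtain ⟨b, b1, b2⟩ := third hk a t
  obtain ⟨big, bigD⟩ := nr.big hk sz q.e1 q.e2 n1 n2 n3
  have hs := deg_cnt π s 1 (⋃ i, V i) fun v hv => (Set.ncard_pos).2 (nr.nbr hk hv)
  set γ : Fin 3 → Fin k := ![t, a, b] with hγ
  have gi : Function.Injective γ := by
    have := nr.hij
    intro i j; fin_cases i <;> fin_cases j <;> simp [hγ, *, Ne.symm]
  have g2 : ∀ i, γ i ≠ γ (i + 2) := fun i e => absurd (gi e) (by fin_cases i <;> decide)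
  set A : Fin 3 → Fin k → Set (Fin n) := fun i c => if c = γ (i + 2) then {X (i + 2)} else
    if c = γ i then {if i = 0 then u else X i} else
      (if i = 0 ∧ c = a then D ∩ V c else V c) \ AB k m π s with hA
  have A1 : ∀ i c, c ≠ γ i → c ≠ γ (i + 2) →
      A i c = (if i = 0 ∧ c = a then D ∩ V c else V c) \ AB k m π s := fun i c h1 h2 => by
    simp only [hA, h1, h2, if_false]
  have A2 : ∀ i, A i (γ i) = {if i = 0 then u else X i} := fun i => by
    simp only [hA, g2 i, if_false, if_true]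
  have A3 : ∀ i, A i (γ (i + 2)) = {X (i + 2)} := fun i => by simp only [hA, if_true]
  have A4 : ∀ i c, c ≠ γ i → c ≠ γ (i + 2) → w < (A i c).ncard := fun i c h1 h2 => by
    have := Set.ncard_le_ncard_sdiff_add_ncard (if i = 0 ∧ c = a then D ∩ V c else V c)
      (AB k m π s)
    rw [← A1 i c h1 h2] at this
    have := big c
    split_ifs at * with h
    · rw [h.2] at *; omega
    · omega
  refine ⟨γ, ?_⟩
  have h2 := cnt_pi2 A
  refine le_trans ?_ (h2.ge.trans (cnt_mono subset_rfl fun ρ _ hρ => ?_))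
  · refine le_trans (by simp) (pow_card_le_prod univ _ (w ^ (k - 2)) fun i _ => ?_)
    refine le_trans ?_ (prod_le_prod_of_subset_of_one_le' (subset_univ {γ i, γ (i + 2)}ᶜ)
      fun c _ hc => ?_)
    · refine le_trans (le_of_eq ?_) (pow_card_le_prod _ _ w fun c hc => ?_)
      · rw [card_compl, card_pair (g2 i), Fintype.card_fin]
      · simp only [mem_compl, mem_insert, mem_singleton, not_or] at hc
        exact (A4 i c hc.1 hc.2).le
    · simp only [mem_compl, mem_insert, mem_singleton, not_not] at hc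
      rcases hc with rfl | rfl <;> simp [A2, A3]
  · have r2 : ∀ i, ρ i (γ i) = if i = 0 then u else X i := fun i => by simpa [A2] using hρ i (γ i)
    have r3 : ∀ i, ρ i (γ (i + 2)) = X (i + 2) := fun i => by simpa [A3] using hρ i (γ (i + 2))
    have r0 : ρ 0 (γ 0) = u := by simpa using r2 0
    have r1 := fun i c h1 h2 => A1 i c h1 h2 ▸ hρ i c
    refine ⟨r0, s, a1, a2, q.tv, by omega, V, C, D, ⟨hk, nr, hX, gi, iso, r3, r0 ▸ pC, r0 ▸ pV,
      fun i hi => by simpa [hi] using r2 i, ?_, fun i c h1 h2 => ?_⟩, ns, sz,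
      fun r hr i c hc ha => ?_⟩
    · have := (r1 0 (γ 1) (fun e => absurd (gi e) (by decide))
        fun e => absurd (gi e) (by decide)).1
      rw [if_pos ⟨rfl, rfl⟩] at this
      exact this.1
    · have := (r1 i c h1 h2).1
      split_ifs at this
      exacts [this.2, this]
    · by_cases h2 : c = γ (i + 2)
      · exact hc ⟨_, by rw [h2, r3]⟩
      by_cases h1 : c = γ i
      · rw [h1, r2] at hc ha
        split_ifs at hc ha
        exacts [a3 ⟨r, hr, ha⟩, hc ⟨_, rfl⟩]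
      · exact (r1 i c h1 h2).2 ⟨r, hr, ha⟩

end

end Pool.Agent.Lib.MP_4b2155_pr.Q
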