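import Pool.Agent.Lib.MP_4b2155_pr.Transfer

set_option autoImplicit false

namespace Pool.Agent.Lib.MP_4b2155_pr.Q

open Finset Pool.Agent.Lib.MP_ad359d_co FP

noncomputable section

variable {n : ℕ} {π π' : Ord n} {f : Ed n}

def mu (n : ℕ) : FP (Ord n) := unif univ univ_nonempty

theorem mu_equiv (φ : Ord n ≃ Ord n) (E : Ord n → Prop) :
    (mu n).P (fun π => E (φ π)) = (mu n).P E := by
  simp only [mu, P, unif_E]
  rw [Equiv.sum_comp φ fun π => ind (E π)]

theorem mu_fib (f : Ed n) (E : Ord n → Prop) :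
    ∑ m, (mu n).P (fun π => E π ∧ π f = m) = (mu n).P E := by
  simp only [P]
  rw [← E_sum]
  congr 1; funext π
  simp only [ind_and, mul_comm (ind (E π))]
  exact sum_ind_eq_mul' (π f) fun _ => ind (E π)

theorem cyc_val {N : ℕ} {i m : Fin N} (h : i ≤ m) (a : Fin N) : (Fin.cycleIcc i m a : ℕ) =
    if a = m then (i : ℕ) else if (i : ℕ) ≤ a ∧ (a : ℕ) < m then a + 1 else a := by
  have : NeZero N := ⟨i.pos.ne'⟩
  split_ifs with h1 h2
  · rw [h1, Fin.cycleIcc_of_last h]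
  · rw [Fin.cycleIcc_of_ge_of_lt h2.1 h2.2, Fin.val_add_one_of_lt' (by omega)]
  · rcases lt_or_ge a i with h3 | h3
    · rw [Fin.cycleIcc_of_lt h3]
    · rw [Fin.cycleIcc_of_gt (lt_of_le_of_ne (not_lt.1 fun h4 => h2 ⟨h3, h4⟩) (Ne.symm h1))]

def Mv (π π' : Ord n) (f : Ed n) : Prop := (π' f : ℕ) ≤ π f ∧
  ∀ e, e ≠ f → (π' e : ℕ) = if (π' f : ℕ) ≤ π e ∧ (π e : ℕ) < π f then (π e : ℕ) + 1 else π e

theorem Mv.ne (e : Ed n) (he : e ≠ f) : (π e : ℕ) ≠ π f :=
  fun h => he (π.injective (Fin.ext h))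

theorem Mv.late (h : Mv π π' f) {r : ℕ} (h1 : (π' f : ℕ) ≤ r) (h2 : r ≤ π f) (e : Ed n) :
    (π' e : ℕ) < r + 1 ↔ (π e : ℕ) < r ∨ e = f := by
  by_cases he : e = f
  · subst he; simp; omega
  · have := Mv.ne (π := π) e he
    rw [h.2 e he]; simp only [he, or_false]; split_ifs <;> omega

theorem Mv.early (h : Mv π π' f) {r : ℕ} (h1 : r ≤ π' f) (e : Ed n) :
    (π' e : ℕ) < r ↔ (π e : ℕ) < r := by
  have := h.1
  by_cases he : e = f
  · subst he; omega
  · rw [h.2 e he]; split_ifs <;> omega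

theorem Mv.le (h : Mv π π' f) {e : Ed n} (he : e ≠ f) :
    (π e : ℕ) ≤ π' e ∧ (π' e : ℕ) ≤ π e + 1 := by
  rw [h.2 e he]; split_ifs <;> omega

theorem mu_core (f : Ed n) {i m : Fin (n.choose 2)} (h : i ≤ m) : ∃ φ : Ord n ≃ Ord n,
    ∀ π, (φ π f = i ↔ π f = m) ∧ (π f = m → Mv π (φ π) f) := by
  have : NeZero (n.choose 2) := ⟨i.pos.ne'⟩
  refine ⟨Equiv.equivCongr (Equiv.refl _) (Fin.cycleIcc i m), fun π => ?_⟩
  have e : ∀ e, Equiv.equivCongr (Equiv.refl _) (Fin.cycleIcc i m) π e = Fin.cycleIcc i m (π e) :=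
    fun _ => rfl
  refine ⟨?_, fun hm => ?_⟩
  · rw [e, ← (Fin.cycleIcc i m).apply_eq_iff_eq (x := π f), Fin.cycleIcc_of_last h]
  · have e1 : Fin.cycleIcc i m (π f) = i := by rw [hm, Fin.cycleIcc_of_last h]
    refine ⟨by rw [e, e1, hm]; exact h, fun a ha => ?_⟩
    rw [e, e, e1, cyc_val h, if_neg fun h' => ha (π.injective (h'.trans hm.symm)), hm]

theorem mu_ins (f : Ed n) {h : ℕ} (hN : h ≤ n.choose 2) {E E' : Ord n → Prop}
    (H : ∀ π π', E π → Mv π π' f → (π' f : ℕ) < h → E' π') (H2 : ∀ π, E π → h ≤ π f) :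
    h * (mu n).P E ≤ (n.choose 2 : ℕ) * (mu n).P E' := by
  have hI : #(univ.filter fun i : Fin (n.choose 2) => (i : ℕ) < h) = h := by
    rw [Fin.card_filter_val_lt]; omega
  calc _ = ∑ i ∈ univ.filter fun i : Fin (n.choose 2) => (i : ℕ) < h,
        ∑ m, (mu n).P (fun π => E π ∧ π f = m) := by
        rw [sum_const, hI, mu_fib, nsmul_eq_mul]
    _ ≤ ∑ i ∈ univ.filter fun i : Fin (n.choose 2) => (i : ℕ) < h,
        ∑ m : Fin (n.choose 2), (mu n).P (fun π => E' π ∧ π f = i) := by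
        refine sum_le_sum fun i hi => sum_le_sum fun m _ => ?_
        have hi := (mem_filter.1 hi).2
        by_cases him : i ≤ m
        · obtain ⟨φ, hφ⟩ := mu_core f him
          rw [← mu_equiv φ fun π => E' π ∧ π f = i]
          exact P_mono _ fun π ⟨a, b⟩ =>
            ⟨H π _ a ((hφ π).2 b) (by rw [(hφ π).1.2 b]; exact hi), (hφ π).1.2 b⟩
        · refine P_mono _ fun π ⟨a, b⟩ => absurd (H2 π a) ?_
          rw [b]; omega
    _ ≤ _ := by
        simp only [sum_const, card_univ, Fintype.card_fin, nsmul_eq_mul]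
        rw [← mul_sum, ← mu_fib f E']
        exact mul_le_mul_of_nonneg_left (sum_le_sum_of_subset_of_nonneg (filter_subset _ _)
          fun _ _ _ => P_nonneg _ _) (Nat.cast_nonneg _)

theorem mu_del (f : Ed n) {T : ℕ} {E E' : Ord n → Prop}
    (H : ∀ π π', Mv π π' f → T ≤ π f → E' π' → E π) (H2 : ∀ π, E' π → (π f : ℕ) < T) :
    ((n.choose 2 : ℕ) - T : ℝ) * (mu n).P E' ≤ T * (mu n).P E := by
  have hI : #(univ.filter fun i : Fin (n.choose 2) => (i : ℕ) < T) ≤ T := by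
    rw [Fin.card_filter_val_lt]; omega
  have hJ : ((n.choose 2 : ℕ) - T : ℝ)
      ≤ #(univ.filter fun i : Fin (n.choose 2) => ¬ (i : ℕ) < T) := by
    have := card_filter_add_card_filter_not (s := (univ : Finset (Fin (n.choose 2))))
      fun i => (i : ℕ) < T
    rw [card_univ, Fintype.card_fin] at this
    rw [sub_le_iff_le_add]; exact_mod_cast (by omega)
  calc _ ≤ ∑ m ∈ univ.filter fun i : Fin (n.choose 2) => ¬ (i : ℕ) < T,
        ∑ i ∈ univ.filter fun i : Fin (n.choose 2) => (i : ℕ) < T,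
          (mu n).P (fun π => E' π ∧ π f = i) := by
        rw [sum_const, nsmul_eq_mul, ← mu_fib f E', sum_filter_of_ne]
        · exact mul_le_mul_of_nonneg_right hJ (sum_nonneg fun _ _ => P_nonneg _ _)
        · intro i _ hi
          by_contra hc
          exact hi (P_false _ fun π ⟨a, b⟩ => hc (b ▸ H2 π a))
    _ ≤ ∑ m ∈ univ.filter fun i : Fin (n.choose 2) => ¬ (i : ℕ) < T,
        ∑ i ∈ univ.filter fun i : Fin (n.choose 2) => (i : ℕ) < T,
          (mu n).P (fun π => E π ∧ π f = m) := by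
        refine sum_le_sum fun m hm => sum_le_sum fun i hi => ?_
        have hi := (mem_filter.1 hi).2
        have hm := (mem_filter.1 hm).2
        obtain ⟨φ, hφ⟩ := mu_core f (show i ≤ m by omega)
        rw [← mu_equiv φ fun π => E' π ∧ π f = i]
        exact P_mono _ fun π ⟨a, b⟩ =>
          ⟨H π _ ((hφ π).2 ((hφ π).1.1 b)) (by rw [(hφ π).1.1 b]; omega) a, (hφ π).1.1 b⟩
    _ ≤ _ := by
        simp only [sum_const, nsmul_eq_mul]
        rw [← mul_sum, ← mu_fib f E]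
        exact mul_le_mul (by exact_mod_cast hI) (sum_le_sum_of_subset_of_nonneg (filter_subset _ _)
          fun _ _ _ => P_nonneg _ _) (sum_nonneg fun _ _ => P_nonneg _ _) (Nat.cast_nonneg _)

theorem mu_all {T : ℕ} {p : ℝ} (hT : T < n.choose 2) (hp : T ≤ p * ((n.choose 2 : ℕ) - T))
    (F : Finset (Ed n)) : (mu n).P (fun π => ∀ e ∈ F, (π e : ℕ) < T) ≤ p ^ #F := by
  have h0 : (0 : ℝ) < (n.choose 2 : ℕ) - T := sub_pos.2 (by exact_mod_cast hT)
  have p0 : 0 ≤ p := le_of_mul_le_mul_right (by simpa using (Nat.cast_nonneg T).trans hp) h0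
  induction F using Finset.induction_on with
  | empty => simpa using P_le_one _ _
  | insert f F hf ih =>
    have := mu_del f (T := T) (E := fun π => ∀ e ∈ F, (π e : ℕ) < T)
      (E' := fun π => ∀ e ∈ insert f F, (π e : ℕ) < T)
      (fun π π' h _ a e he => lt_of_le_of_lt (h.le fun h' => hf (h' ▸ he)).1
        (a e (mem_insert_of_mem he))) fun π a => a f (mem_insert_self _ _)
    rw [card_insert_of_notMem hf, pow_succ']
    refine le_of_mul_le_mul_left (this.trans ?_) h0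
    calc _ ≤ p * ((n.choose 2 : ℕ) - T) * p ^ #F := mul_le_mul hp ih (P_nonneg _ _) (by positivity)
      _ = _ := by ring

theorem cnt_lt (π : Ord n) (t : ℕ) (s : Finset (Ed n)) : cnt s (fun e => (π e : ℕ) < t) ≤ t := by
  have := cnt_le_of_inj (s := s) (t := range t) (p := fun e => (π e : ℕ) < t) (q := fun _ => True)
    (fun e => (π e : ℕ)) (fun e _ h => ⟨mem_range.2 h, trivial⟩)
    fun a _ b _ _ _ h => π.injective (Fin.ext h)
  exact this.trans ((cnt_le_card _ _).trans (by simp))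

theorem mu_none {T a : ℕ} {y : ℝ} (ha : a < n.choose 2) (hy : T ≤ y * ((n.choose 2 : ℕ) - a))
    (y1 : y ≤ 1) (F : Finset (Ed n)) (hF : #F ≤ a) :
    (1 - y) ^ #F ≤ (mu n).P fun π => ∀ e ∈ F, T ≤ (π e : ℕ) := by
  have h0 : (0 : ℝ) < (n.choose 2 : ℕ) - a := sub_pos.2 (by exact_mod_cast ha)
  induction F using Finset.induction_on with
  | empty => simpa using (P_true _ fun _ => trivial).ge
  | insert f F hf ih =>
    rw [card_insert_of_notMem hf] at hF ⊢
    have ih := ih (by omega)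
    set A : Ord n → Prop := fun π => ∀ e ∈ F, T ≤ (π e : ℕ) with hA
    have h1 : ∀ g ∈ Fᶜ, (mu n).P (fun π => A π ∧ (π f : ℕ) < T)
        = (mu n).P (fun π => A π ∧ (π g : ℕ) < T) := fun g hg => by
      rw [← mu_equiv (Equiv.equivCongr (Equiv.swap f g) (Equiv.refl _))]
      refine P_congr _ fun π => and_congr (forall₂_congr fun e he => ?_) (by simp)
      simp [Equiv.swap_apply_of_ne_of_ne (show e ≠ f from fun h => hf (h ▸ he))
        (show e ≠ g from fun h => mem_compl.1 hg (h ▸ he))]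
    have h2 : ∑ g ∈ Fᶜ, (mu n).P (fun π => A π ∧ (π g : ℕ) < T) ≤ T * (mu n).P A := by
      simp only [P]
      rw [← E_sum, ← E_mul_left]
      refine E_mono _ fun π => ?_
      simp only [ind_and]
      rw [← mul_sum, ← cnt_cast, mul_comm]
      exact mul_le_mul_of_nonneg_right (by exact_mod_cast cnt_lt π T _) (ind_nonneg _)
    rw [← sum_congr rfl h1, sum_const, card_compl, card_Ed, nsmul_eq_mul,
      Nat.cast_sub (by omega)] at h2
    have h3 : (mu n).P A ≤ (mu n).P (fun π => ∀ e ∈ insert f F, T ≤ (π e : ℕ)) +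
        (mu n).P (fun π => A π ∧ (π f : ℕ) < T) := P_le_add _ fun π h => by
      by_cases h' : (π f : ℕ) < T
      · exact Or.inr ⟨h, h'⟩
      · exact Or.inl (forall_mem_insert _ _ _ |>.2 ⟨not_lt.1 h', h⟩)
    have h4 : (#F : ℝ) ≤ a := by exact_mod_cast (by omega)
    have h5 := P_nonneg (mu n) fun π => A π ∧ (π f : ℕ) < T
    have h6 := P_nonneg (mu n) A
    have h7 : (mu n).P (fun π => A π ∧ (π f : ℕ) < T) ≤ y * (mu n).P A := by
      refine le_of_mul_le_mul_left ?_ h0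
      nlinarith
    rw [pow_succ']
    nlinarith

def Ins (π π' : Ord n) (F : Finset (Ed n)) (s h : ℕ) : Prop :=
  (∀ r' < s + #F, ∃ r < s, (∀ e, (π e : ℕ) < r → (π' e : ℕ) < r') ∧
    ∀ e, (π' e : ℕ) < r' → (π e : ℕ) < r ∨ e ∈ F) ∧
  (∀ e, (π' e : ℕ) < s + #F ↔ (π e : ℕ) < s ∨ e ∈ F) ∧ ∀ e ∈ F, (π' e : ℕ) < h + #F

theorem mu_insert {h : ℕ} (hN : h ≤ n.choose 2) (B : Ord n → ℕ → Prop) (F : Finset (Ed n))
    (hB : ∀ π s, B π s → h ≤ s ∧ ∀ f ∈ F, s ≤ π f) :
    (h : ℝ) ^ #F * (mu n).P (fun π => ∃ s, B π s) ≤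
      ((n.choose 2 : ℕ) : ℝ) ^ #F * (mu n).P fun π' => ∃ π s, B π s ∧ Ins π π' F s h := by
  induction F using Finset.induction_on with
  | empty =>
    simp only [card_empty, pow_zero, one_mul]
    exact P_mono _ fun π ⟨s, hs⟩ => ⟨π, s, hs, fun r hr => ⟨r, hr, fun _ h => h, fun _ h => Or.inl h⟩,
      by simp, by simp⟩
  | insert f F hf ih =>
    have ih := ih fun π s b => ⟨(hB π s b).1, fun g hg => (hB π s b).2 g (mem_insert_of_mem hg)⟩
    have key : ∀ π π' s, B π s → Ins π π' F s h → h ≤ s ∧ s + #F ≤ π' f := fun π π' s b i =>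
      ⟨(hB π s b).1, not_lt.1 fun c => ((i.2.1 f).1 c).elim
        (not_lt.2 ((hB π s b).2 f (mem_insert_self _ _))) hf⟩
    have := mu_ins f hN (E := fun π' => ∃ π s, B π s ∧ Ins π π' F s h)
      (E' := fun π' => ∃ π s, B π s ∧ Ins π π' (insert f F) s h)
      (fun π₁ π₂ ⟨π, s, b, i⟩ m hm => ⟨π, s, b, by
        obtain ⟨k1, k2⟩ := key π π₁ s b i
        rw [Ins, card_insert_of_notMem hf]
        refine ⟨fun r' hr => ?_, fun e => ?_, fun e he => ?_⟩
        · by_cases c : r' ≤ π₂ f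
          · obtain ⟨r, a1, a2, a3⟩ := i.1 r' (by omega)
            exact ⟨r, a1, fun e he => (m.early c e).2 (a2 e he),
              fun e he => (a3 e ((m.early c e).1 he)).imp_right mem_insert_of_mem⟩
          · obtain ⟨r'', rfl⟩ : ∃ r'', r' = r'' + 1 := ⟨r' - 1, by omega⟩
            obtain ⟨r, a1, a2, a3⟩ := i.1 r'' (by omega)
            have l := m.late (r := r'') (by omega) (by omega)
            refine ⟨r, a1, fun e he => (l e).2 (Or.inl (a2 e he)), fun e he => ?_⟩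
            rcases (l e).1 he with h1 | h1
            exacts [(a3 e h1).imp_right mem_insert_of_mem, Or.inr (h1 ▸ mem_insert_self _ _)]
        · rw [← add_assoc, m.late (by omega) k2, i.2.1, mem_insert]; tauto
        · rcases mem_insert.1 he with rfl | he
          · omega
          · have := i.2.2 e he
            have := (m.le fun h' => hf (h' ▸ he)).2
            omega⟩) fun π₁ ⟨π, s, b, i⟩ => by have := key π π₁ s b i; omega
    rw [card_insert_of_notMem hf, pow_succ', pow_succ, mul_assoc, mul_assoc]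
    calc _ ≤ h * (((n.choose 2 : ℕ) : ℝ) ^ #F * _) := mul_le_mul_of_nonneg_left ih (Nat.cast_nonneg _)
      _ ≤ _ := by rw [mul_left_comm]; exact mul_le_mul_of_nonneg_left this (by positivity)

theorem proc_adj {t : ℕ} {u v : Fin n} : (proc π t).Adj u v ↔
    ∃ h : s(u, v) ∈ (⊤ : SimpleGraph (Fin n)).edgeSet, (π ⟨s(u, v), h⟩ : ℕ) < t := by
  simp only [proc, SimpleGraph.fromEdgeSet_adj, Set.mem_ofPred_eq]
  exact ⟨And.left, fun h => ⟨h, h.1⟩⟩

theorem proc_le {s t : ℕ} (h : ∀ e, (π e : ℕ) < s → (π' e : ℕ) < t) : proc π s ≤ proc π' t :=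
  fun _ _ a => proc_adj.2 ((proc_adj.1 a).imp fun _ => h _)

end

end Pool.Agent.Lib.MP_4b2155_pr.Q
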