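import Pool.Agent.Lib.MP_4b2155_pr.Q.Bil

set_option autoImplicit false

namespace Pool.Agent.Lib.MP_4b2155_pr.Q

open Set

variable {α : Type} {k : ℕ} {G G' : SimpleGraph α} {V W : Fin k → Set α} {u v w : α}
  {i j : Fin k} {C D : Set α} {m : ℕ}

structure Near (G : SimpleGraph α) (V : Fin k → Set α) (i j : Fin k) (C D : Set α) : Prop
    extends St G V where
  ne : ∀ l, (V l).Nonempty
  hij : i ≠ j
  con : ∀ i' j', i' ≠ j' → (i', j') ≠ (i, j) → (i', j') ≠ (j, i) → Con G (V i' ∪ V j')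
  un : C ∪ D = V i ∪ V j
  cC : Con G C
  cD : Con G D
  le : C.ncard ≤ D.ncard

def NoSub (G : SimpleGraph α) (V : Fin k → Set α) : Prop :=
  ∀ W : Fin k → Set α, (∀ l, W l ⊆ V l) → ¬ Col G W

def Active (k m : ℕ) (G : SimpleGraph α) (p : α) : Prop :=
  ∃ (V : Fin k → Set α) (a t : Fin k) (C D : Set α), Near G V a t C D ∧ p ∈ C ∧ p ∈ V a ∧
    m ≤ (⋃ i, V i).ncard + 3 ∧ NoSub G V

theorem Near.symm (h : Near G V i j C D) : Near G V j i C D :=
  { h with hij := h.hij.symm, con := fun a b h1 h2 h3 => h.con a b h1 h3 h2,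
           un := h.un.trans (union_comm _ _) }

theorem Near.active (h : Near G V i j C D) (hu : u ∈ C) (hm : m ≤ (⋃ i, V i).ncard + 3)
    (hs : NoSub G V) : Active k m G u := by
  rcases h.un.le (Or.inl hu) with h1 | h1
  · exact ⟨V, i, j, C, D, h, hu, h1, hm, hs⟩
  · exact ⟨V, j, i, C, D, h.symm, hu, h1, hm, hs⟩

theorem active_of (h : St G V) (hne : ∀ l, (V l).Nonempty) (hij : i ≠ j)
    (hc : ∀ i' j', i' ≠ j' → (i', j') ≠ (i, j) → (i', j') ≠ (j, i) → Con G (V i' ∪ V j'))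
    (hu : comp G (V i ∪ V j) u ∪ comp G (V i ∪ V j) v = V i ∪ V j)
    (hm : m ≤ (⋃ i, V i).ncard + 3) (hs : NoSub G V) : Active k m G u ∨ Active k m G v := by
  rcases le_total (comp G (V i ∪ V j) u).ncard (comp G (V i ∪ V j) v).ncard with h1 | h1
  · exact Or.inl (Near.active ⟨h, hne, hij, hc, hu, con_comp, con_comp, h1⟩ R.rfl' hm hs)
  · exact Or.inr (Near.active ⟨h, hne, hij, hc, (union_comm _ _).trans hu, con_comp, con_comp, h1⟩
      R.rfl' hm hs)

def MinC (G : SimpleGraph α) (V : Fin k → Set α) : Prop :=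
  Col G V ∧ ∀ W : Fin k → Set α, (∀ l, W l ⊆ V l) → Col G W → W = V

theorem Col.up (h : Col G' W) (hG : G' ≤ G) (hs : St G W) : Col G W :=
  ⟨⟨hs, h.1.ne, fun i j hij => (h.1.con i j hij).mono fun _ _ _ _ a => hG a⟩, h.2⟩

theorem del_mem (hG : G' ≤ G) (hd : ∀ a b, G.Adj a b → G'.Adj a b ∨ s(a, b) = s(u, v))
    (h : Col G' W) (h' : ¬ Col G W) : u ∈ ⋃ i, W i := by
  by_contra hc
  refine h' (h.up hG ⟨fun i a ha b hb hab => ?_, h.1.dis⟩)
  rcases hd a b hab with h1 | h1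
  · exact h.1.ind i a ha b hb h1
  · rcases Sym2.eq_iff.1 h1 with ⟨rfl, -⟩ | ⟨-, rfl⟩
    exacts [hc (mem_iUnion.2 ⟨i, ha⟩), hc (mem_iUnion.2 ⟨i, hb⟩)]

theorem del_min (hG : G' ≤ G) (hd : ∀ a b, G.Adj a b → G'.Adj a b ∨ s(a, b) = s(u, v))
    (h : MinC G V) (hm : m ≤ (⋃ i, V i).ncard + 3) :
    MinC G' V ∨ Active k m G' u ∨ Active k m G' v := by
  have hs : St G' V := h.1.1.toSt.sub (fun _ => subset_rfl) hG
  have hW : ∀ W : Fin k → Set α, (∀ l, W l ⊆ V l) → Col G' W → W = V := fun W h1 h2 =>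
    h.2 W h1 (h2.up hG (h.1.1.toSt.sub h1 le_rfl))
  by_cases hc : ∀ i j, i ≠ j → Con G' (V i ∪ V j)
  · exact Or.inl ⟨⟨⟨hs, h.1.1.ne, hc⟩, h.1.2⟩, hW⟩
  have key : ∀ i j, i ≠ j → ¬ Con G' (V i ∪ V j) →
      (u ∈ V i ∧ v ∈ V j) ∨ (u ∈ V j ∧ v ∈ V i) := fun i j hij hn => by
    by_contra h0
    refine hn ((h.1.1.con i j hij).mono fun a ha b hb hab => (hd a b hab).resolve_right fun e => ?_)
    have i1 := h.1.1.ind i a
    have i2 := h.1.1.ind j a
    rcases Sym2.eq_iff.1 e with ⟨rfl, rfl⟩ | ⟨rfl, rfl⟩ <;> rcases ha with ha | ha <;>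
      rcases hb with hb | hb <;> tauto
  push Not at hc
  obtain ⟨i, j, hij, hn⟩ := hc
  have huv := key i j hij hn
  refine Or.inr (active_of hs h.1.1.ne hij (fun i' j' a1 a2 a3 => ?_)
    (del_edge (h.1.1.con i j hij) hd (by rcases huv with h | h; exacts [Or.inl h.1, Or.inr h.1])
      (by rcases huv with h | h; exacts [Or.inr h.2, Or.inl h.2])) hm
    fun W h1 h2 => hn ((hW W h1 h2 ▸ h2).1.con i j hij))
  by_contra h0
  rcases key i' j' a1 h0 with h1 | h1 <;> rcases huv with h2 | h2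
  · exact a2 (Prod.ext (hs.dis _ _ u h1.1 h2.1) (hs.dis _ _ v h1.2 h2.2))
  · exact a3 (Prod.ext (hs.dis _ _ u h1.1 h2.1) (hs.dis _ _ v h1.2 h2.2))
  · exact a3 (Prod.ext (hs.dis _ _ v h1.2 h2.2) (hs.dis _ _ u h1.1 h2.1))
  · exact a2 (Prod.ext (hs.dis _ _ v h1.2 h2.2) (hs.dis _ _ u h1.1 h2.1))

theorem third (hk : 3 ≤ k) (a t : Fin k) : ∃ b, b ≠ a ∧ b ≠ t := by
  obtain ⟨b, -, hb⟩ := Finset.exists_mem_notMem_of_card_lt_card (s := {a, t})
    (t := (Finset.univ : Finset (Fin k)))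
    (lt_of_le_of_lt Finset.card_le_two (by simp; omega))
  exact ⟨b, by simpa using hb⟩

theorem Near.nbr (hk : 3 ≤ k) (h : Near G V i j C D) (hu : u ∈ ⋃ l, V l) : ∃ w, G.Adj u w := by
  obtain ⟨l, hl⟩ := mem_iUnion.1 hu
  obtain ⟨b, h1, h2⟩ := third hk i j
  by_cases e : l = b
  · obtain ⟨w, -, a⟩ := h.toSt.nbr (j := i) (e ▸ h1)
      (h.con l i (e ▸ h1) (by simp [e, h1]) (by simp [e, h2])) (h.ne i) hl
    exact ⟨w, a⟩
  · obtain ⟨w, -, a⟩ := h.toSt.nbr e (h.con l b e (by simp [h2]) (by simp [h1])) (h.ne b) hl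
    exact ⟨w, a⟩

variable [Finite α]

theorem exists_min (h : Col G V) : ∃ W : Fin k → Set α, MinC G W := by
  obtain ⟨W, hW, hm⟩ := (measure fun W : Fin k → Set α => (⋃ i, W i).ncard).wf.has_min
    {W | Col G W} ⟨V, h⟩
  refine ⟨W, hW, fun W' h1 h2 => funext fun l => (h1 l).antisymm fun u hu => ?_⟩
  have e : ⋃ i, W' i = ⋃ i, W i :=
    eq_of_subset_of_ncard_le (iUnion_mono h1) (not_lt.1 (hm W' h2))
  obtain ⟨l', hl⟩ := mem_iUnion.1 (e.ge (mem_iUnion.2 ⟨l, hu⟩))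
  exact hW.1.dis l' l u (h1 l' hl) hu ▸ hl

def Ex (G : SimpleGraph α) (w b : ℕ) : Prop :=
  ∀ S : Set α, S.ncard ≤ w → {v | ∃ u ∈ S, G.Adj u v}.ncard ≤ b

theorem Ex.mono {w b : ℕ} (h : Ex G w b) (hG : G' ≤ G) : Ex G' w b := fun S hS =>
  (ncard_le_ncard (by rintro v ⟨u, hu, a⟩; exact ⟨u, hu, hG a⟩)).trans (h S hS)

theorem Near.big {w1 b1 w2 b2 : ℕ} (hk : 3 ≤ k) (h : Near G V i j C D)
    (hm : m ≤ (⋃ i, V i).ncard + 3) (e1 : Ex G w1 b1) (e2 : Ex G w2 b2) (n1 : k * b1 + 3 < m)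
    (n2 : 2 * w1 ≤ b1) (n3 : w2 + b2 < w1) :
    (∀ c, w2 < (V c).ncard) ∧ w2 < (D ∩ V i).ncard := by
  obtain ⟨l, hl⟩ : ∃ l, b1 < (V l).ncard := by
    by_contra hc
    push Not at hc
    have := (ncard_iUnion_le_of_fintype V).trans
      (Finset.sum_le_card_nsmul _ _ b1 fun c _ => hc c)
    simp only [Finset.card_univ, Fintype.card_fin, smul_eq_mul] at this
    omega
  have step : ∀ {w b : ℕ}, Ex G w b → ∀ c c', c' ≠ c → (c', c) ≠ (i, j) → (c', c) ≠ (j, i) →
      b < (V c').ncard → w < (V c).ncard := fun {w b} e c c' a1 a2 a3 a4 => by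
    by_contra hc
    refine absurd ((ncard_le_ncard fun v hv => ?_).trans (e (V c) (not_lt.1 hc))) (not_le.2 a4)
    obtain ⟨u, hu, a⟩ := h.toSt.nbr a1 (h.con _ _ a1 a2 a3) (h.ne c) hv
    exact ⟨u, hu, a.symm⟩
  have A : ∀ c, (l, c) ≠ (i, j) → (l, c) ≠ (j, i) → w1 < (V c).ncard := fun c a2 a3 => by
    by_cases a1 : l = c
    · rw [← a1]; omega
    · exact step e1 c l a1 a2 a3 hl
  obtain ⟨b, h1, h2⟩ := third hk i j
  have hb := A b (by simp [h2]) (by simp [h1])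
  refine ⟨fun c => ?_, ?_⟩
  · by_cases a1 : b = c
    · rw [← a1]; omega
    · exact step e2 c b a1 (by simp [h1]) (by simp [h2]) (by omega)
  have hD : w1 < D.ncard := by
    have a1 : (V i ∪ V j).ncard ≤ 2 * D.ncard := by
      have := ncard_union_le C D
      have := h.le
      rw [← h.un]; omega
    by_cases a2 : l = i ∨ l = j
    · have : (V l).ncard ≤ (V i ∪ V j).ncard := ncard_le_ncard (by
        rcases a2 with rfl | rfl
        exacts [subset_union_left, subset_union_right])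
      omega
    · push Not at a2
      have a3 := A i (by simp [a2.1]) (by simp [a2.2])
      have a4 := A j (by simp [a2.1]) (by simp [a2.2])
      rw [ncard_union_eq (disjoint_left.2 fun u hu hv => h.hij (h.dis i j u hu hv))] at a1
      omega
  by_contra hc
  have a1 := e2 _ (not_lt.1 hc)
  have a2 : D ⊆ (D ∩ V i) ∪ {v | ∃ u ∈ D ∩ V i, G.Adj u v} := fun d hd => by
    rcases h.un.le (Or.inr hd) with h3 | h3
    · exact Or.inl ⟨hd, h3⟩
    obtain ⟨d', hd', e⟩ := exists_ne_of_one_lt_ncard (s := D) (by omega) d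
    obtain ⟨u, hu, a⟩ := h.cD.nbr hd hd' e.symm
    exact Or.inr ⟨u, ⟨hu, (h.un.le (Or.inr hu)).resolve_right fun h4 => h.ind j d h3 u h4 a⟩, a.symm⟩
  have := (ncard_le_ncard a2).trans (ncard_union_le _ _)
  omega

def UC (G : SimpleGraph α) (X : Set α) (c : α → Fin k) : Prop :=
  ∀ c' : α → Fin k, (∀ u ∈ X, ∀ v ∈ X, G.Adj u v → c' u ≠ c' v) →
    ∀ u ∈ X, ∀ v ∈ X, c u = c v ↔ c' u = c' v

omit [Finite α] in
theorem uc_bil {X : Set α} {c : α → Fin k} (hp : ∀ u ∈ X, ∀ v ∈ X, G.Adj u v → c u ≠ c v)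
    (h : UC G X c) (hX : k ≤ X.ncard) : Bil G fun l => {u | u ∈ X ∧ c u = l} := by
  classical
  refine ⟨⟨fun i u hu v hv a => hp u hu.1 v hv.1 a (hu.2.trans hv.2.symm),
    fun i j u hu hv => hu.2.symm.trans hv.2⟩, fun l => ?_, fun i j hij u hu v hv => ?_⟩
  · by_contra hc
    have hc : ∀ u ∈ X, c u ≠ l := fun u hu e => hc ⟨u, hu, e⟩
    obtain ⟨u, hu, v, hv, huv, e⟩ := exists_ne_map_eq_of_ncard_lt_of_maps_to (s := X)
      (t := {l}ᶜ) (f := c) (by
        have := ncard_add_ncard_compl ({l} : Set (Fin k))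
        simp only [ncard_singleton, Nat.card_eq_fintype_card, Fintype.card_fin] at this
        omega) hc
    have := (h (Function.update c u l) (fun a ha b hb hab => by
      by_cases h1 : a = u
      · subst h1
        rw [Function.update_self, Function.update_of_ne hab.ne']; exact (hc b hb).symm
      · by_cases h2 : b = u
        · subst h2
          rw [Function.update_self, Function.update_of_ne h1]; exact hc a ha
        · rw [Function.update_of_ne h1, Function.update_of_ne h2]; exact hp a ha b hb hab)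
      u hu v hv).1 e
    rw [Function.update_self, Function.update_of_ne huv.symm] at this
    exact hc v hv this.symm
  · by_contra hc
    set S := {u | u ∈ X ∧ c u = i} ∪ {u | u ∈ X ∧ c u = j} with hS
    have k1 : ∀ a ∈ comp G S u, ∀ b ∈ X, b ∉ comp G S u → G.Adj a b →
        Equiv.swap i j (c a) ≠ c b := fun a ha b hb hb' hab e => by
      refine hb' (comp_step ha (comp_sub hu ha) ?_ hab)
      rcases comp_sub hu ha with h1 | h1
      · exact Or.inr ⟨hb, by rw [← e, h1.2, Equiv.swap_apply_left]⟩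
      · exact Or.inl ⟨hb, by rw [← e, h1.2, Equiv.swap_apply_right]⟩
    have := h (fun a => if a ∈ comp G S u then Equiv.swap i j (c a) else c a)
      (fun a ha b hb hab => by
        by_cases h1 : a ∈ comp G S u <;> by_cases h2 : b ∈ comp G S u <;>
          simp only [h1, h2, if_true, if_false]
        · exact fun e => hp a ha b hb hab ((Equiv.swap i j).injective e)
        · exact k1 a h1 b hb h2 hab
        · exact (k1 b h2 a ha h1 hab.symm).symm
        · exact hp a ha b hb hab)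
      u (hu.elim And.left And.left) v (hv.elim And.left And.left)
    rw [if_pos (show u ∈ comp G S u from R.rfl'), if_neg (show v ∉ comp G S u from hc)] at this
    rcases hu with hu | hu <;> rcases hv with hv | hv <;>
      simp [hu.2, hv.2, hij, hij.symm] at this

end Pool.Agent.Lib.MP_4b2155_pr.Q
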