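import Pool.Agent.Lib.MP_4b2155_pr.Q.Ins

set_option autoImplicit false

namespace Pool.Agent.Lib.MP_4b2155_pr.Q

open Finset Pool.Agent.Lib.MP_ad359d_co FP Filter Topology

noncomputable section

variable {n k m T M : ℕ}

theorem top_X {w w1 b1 b2 h : ℕ} {X : Fin 3 → Fin n} (hk : 3 ≤ k) (hX : Function.Injective X)
    (n1 : k * b1 + 3 < m) (n2 : 2 * w1 ≤ b1) (n3 : 2 * w + b2 < w1)
    (n4 : 2 * (h + 3 * k) + 3 ≤ m) :
    (((w : ℝ) ^ (k - 2)) ^ 3) * ∑ u, (mu n).P (Act' k m T w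
      (fun G => QX k m M w1 b1 (2 * w) b2 G ∧ ∀ i v, ¬ G.Adj (X i) v) u) ≤
      ∑ γ : Fin 3 → Fin k, ∑ ρ : Fin 3 → Fin k → Fin n,
        (mu n).P fun π => ∃ s, B0 k m T M h X γ ρ π s := by
  simp only [P, ← E_sum, ← E_mul_left]
  refine E_mono _ fun π => ?_
  calc _ ≤ ∑ u, ∑ γ : Fin 3 → Fin k, ∑ ρ : Fin 3 → Fin k → Fin n,
        ind (ρ 0 (γ 0) = u ∧ ∃ s, B0 k m T M h X γ ρ π s) := by
        rw [mul_sum]
        refine sum_le_sum fun u _ => ?_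
        have nn : ∀ γ : Fin 3 → Fin k, 0 ≤ ∑ ρ : Fin 3 → Fin k → Fin n,
            ind (ρ 0 (γ 0) = u ∧ ∃ s, B0 k m T M h X γ ρ π s) :=
          fun γ => sum_nonneg fun _ _ => ind_nonneg _
        by_cases a : Act' k m T w
          (fun G => QX k m M w1 b1 (2 * w) b2 G ∧ ∀ i v, ¬ G.Adj (X i) v) u π
        · obtain ⟨γ, hγ⟩ := ter_cnt hk hX n1 n2 n3 n4 a
          rw [ind_true a, mul_one]
          refine le_trans ?_ (single_le_sum (fun γ _ => nn γ) (mem_univ γ))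
          rw [← cnt_cast]; exact_mod_cast hγ
        · rw [ind_false a, mul_zero]; exact sum_nonneg fun γ _ => nn γ
    _ = _ := by
        rw [sum_comm]
        refine sum_congr rfl fun γ _ => ?_
        rw [sum_comm]
        refine sum_congr rfl fun ρ _ => ?_
        simp only [ind_and]
        exact sum_ind_eq_mul' (ρ 0 (γ 0)) fun _ => ind (∃ s, B0 k m T M h X γ ρ π s)

theorem top_up {h : ℕ} (hN : h ≤ n.choose 2) (hm : 3 * k + 6 ≤ m) :
    (h : ℝ) ^ (3 * k - 2) * ∑ X : Fin 3 → Fin n, ∑ γ : Fin 3 → Fin k,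
      ∑ ρ : Fin 3 → Fin k → Fin n, (mu n).P (fun π => ∃ s, B0 k m T M h X γ ρ π s) ≤
      ((n.choose 2 : ℕ) : ℝ) ^ (3 * k - 2) * (k ^ 3 * ((M + 3 + 3 * k : ℕ) ^ 3 * ((k + 2) ^ k) ^ 3) *
        (mu n).P fun π => Viol k m π ∨ ¬ Spa (proc π (T + 3 * k)) m) := by
  simp only [mul_sum]
  refine (sum_le_sum fun X _ => sum_le_sum fun γ _ => sum_le_sum fun ρ _ => ins_prob hN hm).trans ?_
  simp only [← mul_sum]
  refine mul_le_mul_of_nonneg_left ?_ (by positivity)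
  simp only [P, ← E_sum, ← E_mul_left]
  refine E_mono _ fun π => ?_
  simp only [ind_and, ← mul_sum, sum_const, card_univ, Fintype.card_fun, Fintype.card_fin,
    nsmul_eq_mul]
  rw [mul_comm]
  push_cast
  refine mul_le_mul_of_nonneg_right (mul_le_mul_of_nonneg_left ?_ (by positivity)) (ind_nonneg _)
  simpa using vis_cnt (k := k) (proc π (h + 3 * k)) (M + 3 + 3 * k)

theorem top_fin {w w1 b1 b2 J : ℕ} {a q ρ : ℝ} (hk : 3 ≤ k) (n1 : k * b1 + 3 < m)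
    (n2 : 2 * w1 ≤ b1) (n3 : 2 * w + b2 < w1) (n4 : 2 * (w + 3 * k) + 3 ≤ m) (hw : w ≤ n)
    (hN : n ≤ n.choose 2) (hT : T < n.choose 2) (h1 : 1 ≤ ρ)
    (hρ : (T : ℝ) * n ≤ ρ * ((n.choose 2 : ℕ) - T)) (hJ : 4 * T ≤ (J + 1) * m) (a0 : 0 ≤ a)
    (q0 : 0 ≤ q) (aw : a * n ≤ w) (an : a * n + 2 ≤ n)
    (hq : ∀ X : Fin 3 → Fin n, q ≤ (mu n).P fun π =>
      (∃ t ≤ T, ∃ V : Fin k → Set (Fin n), Col (proc π t) V) ∧
        QX k m M w1 b1 (2 * w) b2 (proc π T) ∧ ∀ i v, ¬ (proc π T).Adj (X i) v) :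
    a ^ (6 * k - 3) * q ≤ 2 * (3 * ρ) ^ J * (k ^ 3 * ((M + 3 + 3 * k : ℕ) ^ 3 * ((k + 2) ^ k) ^ 3)) *
      (mu n).P fun π => Viol k m π ∨ ¬ Spa (proc π (T + 3 * k)) m := by
  have n0 : (0 : ℝ) < n := by nlinarith [Nat.cast_nonneg (α := ℝ) n]
  have am : a * n ≤ m := aw.trans (by exact_mod_cast (by omega))
  set S : (Fin 3 → Fin n) → ℝ := fun X => ∑ γ : Fin 3 → Fin k, ∑ ρ : Fin 3 → Fin k → Fin n,
    (mu n).P fun π => ∃ s, B0 k m T M w X γ ρ π s with hS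
  have S0 : ∀ X, 0 ≤ S X := fun X => sum_nonneg fun _ _ => sum_nonneg fun _ _ => P_nonneg _ _
  have b1 : ∀ X : Fin 3 ↪ Fin n, ((a * n) ^ (k - 2)) ^ 3 * (a * n * (a * n * q))
      ≤ 2 * (3 * ρ) ^ J * (n * S X) := fun X => by
    have c1 := act_lower (k := k) (m := m) (T := T)
      (Q := fun G => QX k m M w1 b1 (2 * w) b2 G ∧ ∀ i v, ¬ G.Adj (X i) v) hk
      (fun G G' h g => ⟨⟨g.1.spa.mono h, g.1.e1.mono h, g.1.e2.mono h, le_trans (Set.ncard_le_ncard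
        (by rintro v ⟨a, b, h1, h2, h3⟩; exact ⟨a, b, h h1, h h2, h h3⟩)) g.1.tv⟩,
        fun i v a => g.2 i v (h a)⟩) (fun G V g h => h.large hk g.1.spa) hT h1 hρ hJ hw
    have c2 := top_X (T := T) (M := M) hk X.injective n1 n2 n3 n4
    have c3 := hq X
    calc _ ≤ ((w : ℝ) ^ (k - 2)) ^ 3 * (w * (m * _)) := by gcongr
      _ ≤ _ := mul_le_mul_of_nonneg_left c1 (by positivity)
      _ = 2 * (3 * ρ) ^ J * (n * _) := by rw [mul_left_comm, mul_left_comm _ (n : ℝ)]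
      _ ≤ _ := by gcongr
  have b2 : ∑ X : Fin 3 ↪ Fin n, S X ≤ ∑ X, S X := by
    exact (sum_map univ (⟨_, DFunLike.coe_injective⟩ : (Fin 3 ↪ Fin n) ↪ (Fin 3 → Fin n)) S).ge.trans
      (sum_le_sum_of_subset_of_nonneg (subset_univ _) fun _ _ _ => S0 _)
  have b3 : (a * n) ^ 3 ≤ Fintype.card (Fin 3 ↪ Fin n) := by
    rw [Fintype.card_embedding_eq, Fintype.card_fin, Fintype.card_fin]
    have h2 : 2 ≤ n := by exact_mod_cast (show (2 : ℝ) ≤ n by nlinarith)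
    refine le_trans ?_ (Nat.cast_le.2 (Nat.pow_sub_le_descFactorial n 3))
    rw [show n + 1 - 3 = n - 2 by omega, Nat.cast_pow, Nat.cast_sub h2]
    gcongr; push_cast; linarith
  have b4 := sum_le_sum fun X (_ : X ∈ univ) => b1 X
  rw [sum_const, card_univ, nsmul_eq_mul, ← mul_sum, ← mul_sum] at b4
  have b5 := top_up (T := T) (M := M) (hw.trans hN) (show 3 * k + 6 ≤ m by omega)
  have b6 : ((n.choose 2 : ℕ) : ℝ) ≤ n ^ 2 := by exact_mod_cast Nat.choose_le_pow n 2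
  have p0 := P_nonneg (mu n) fun π => Viol k m π ∨ ¬ Spa (proc π (T + 3 * k)) m
  generalize (mu n).P (fun π => Viol k m π ∨ ¬ Spa (proc π (T + 3 * k)) m) = p at *
  have K0 : (0 : ℝ) ≤ k ^ 3 * ((M + 3 + 3 * k : ℕ) ^ 3 * ((k + 2) ^ k) ^ 3) := by positivity
  generalize (k : ℝ) ^ 3 * ((M + 3 + 3 * k : ℕ) ^ 3 * ((k + 2) ^ k) ^ 3) = K at *
  obtain ⟨j, rfl⟩ : ∃ j, k = j + 2 := ⟨k - 2, by omega⟩
  rw [show 6 * (j + 2) - 3 = 6 * j + 9 by omega]
  rw [show 3 * (j + 2) - 2 = 3 * j + 4 by omega] at b5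
  rw [Nat.add_sub_cancel] at b4
  have s0 : 0 ≤ ∑ X, S X := sum_nonneg fun _ _ => S0 _
  refine le_of_mul_le_mul_left ?_ (pow_pos n0 (6 * j + 9))
  calc _ = (a * n) ^ (3 * j + 4) * ((a * n) ^ 3 * (((a * n) ^ j) ^ 3 * (a * n * (a * n * q)))) := by
        ring
    _ ≤ (w : ℝ) ^ (3 * j + 4) * (2 * (3 * ρ) ^ J * (n * ∑ X, S X)) := by
        refine mul_le_mul (by gcongr) (le_trans (by gcongr) (b4.trans (by gcongr))) (by positivity)
          (by positivity)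
    _ = 2 * (3 * ρ) ^ J * n * ((w : ℝ) ^ (3 * j + 4) * ∑ X, S X) := by ring
    _ ≤ 2 * (3 * ρ) ^ J * n * ((n ^ 2) ^ (3 * j + 4) * (K * p)) :=
        mul_le_mul_of_nonneg_left (b5.trans (by gcongr)) (by positivity)
    _ = _ := by ring

theorem main (hk : 3 ≤ k) : ∃ ε : ℝ, 0 < ε ∧ ∃ η : ℝ, 0 < η ∧ ∀ᶠ n : ℕ in atTop,
    η ≤ prob n fun π => ∃ (τ : ℕ) (V : Fin k → Set (Fin n)), First π τ V ∧
      ε * n ≤ (⋃ i, V i).ncard ∧ ∀ H : ((proc π τ).induce (⋃ i, V i)).Subgraph,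
        UniqCol H.coe k → H.verts.ncard ≤ k + 2 := by
  obtain ⟨C, C1, hC⟩ := exi hk
  have k3 : (3 : ℝ) ≤ k := by exact_mod_cast hk
  have C1' : (1 : ℝ) ≤ C := by exact_mod_cast C1
  obtain ⟨c, hc⟩ : ∃ c : ℝ, c = 4 * (C + 1) := ⟨_, rfl⟩
  have c1 : 1 ≤ c := by linarith
  obtain ⟨ε, hε⟩ : ∃ ε : ℝ, ε = 1 / (32 * (3 ^ 9 * c ^ 5)) := ⟨_, rfl⟩
  have ε0 : 0 < ε := by rw [hε]; positivity
  have ε1 : 3 ^ 9 * c ^ 5 * ε ≤ 1 / 32 := by rw [hε]; exact le_of_eq (by field_simp)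
  have ε2 : ε ≤ 1 := by nlinarith [one_le_pow₀ (n := 5) c1]
  obtain ⟨e1, e10, he1⟩ := ex_prob (c := c) (β := ε / (4 * k)) (by linarith) (by positivity)
  obtain ⟨a1, a10, a11, a12⟩ : ∃ a1 : ℝ, 0 < a1 ∧ a1 ≤ e1 ∧ a1 ≤ ε / (4 * k) :=
    ⟨min _ _, by positivity, min_le_left _ _, min_le_right _ _⟩
  have a13 : a1 ≤ ε := a12.trans (div_le_self ε0.le (by linarith))
  obtain ⟨e2, e20, he2⟩ := ex_prob (c := c) (β := a1 / 4) (by linarith) (by positivity)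
  obtain ⟨a, a0, a21, a22⟩ : ∃ a : ℝ, 0 < a ∧ 4 * a ≤ e2 ∧ 32 * a ≤ a1 :=
    ⟨min (e2 / 4) (a1 / 32), by positivity, by linarith [min_le_left (e2 / 4) (a1 / 32)],
      by linarith [min_le_right (e2 / 4) (a1 / 32)]⟩
  obtain ⟨q, hq⟩ : ∃ q : ℝ, q = Real.exp (-(6 * c)) := ⟨_, rfl⟩
  have q0 : 0 < q := hq ▸ Real.exp_pos _
  obtain ⟨M, hM⟩ := exists_nat_ge (8 * c ^ 3 / q)
  have M0 : (0 : ℝ) < M := lt_of_lt_of_le (by positivity) hM
  obtain ⟨J, hJ⟩ := exists_nat_ge (8 * C / ε)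
  obtain ⟨K, hK⟩ : ∃ K : ℝ, K = 2 * (3 * c) ^ J *
    (k ^ 3 * ((M + 3 + 3 * k : ℕ) ^ 3 * ((k + 2) ^ k) ^ 3)) := ⟨_, rfl⟩
  have K0 : 0 < K := by rw [hK]; positivity
  obtain ⟨η, hη⟩ : ∃ η : ℝ, η = a ^ (6 * k - 3) * (q / 2) / K / 2 := ⟨_, rfl⟩
  have η0 : 0 < η := by rw [hη]; positivity
  obtain ⟨θ, θ0, θ1, θ2⟩ : ∃ θ : ℝ, 0 < θ ∧ 16 * θ ≤ q ∧ 2 * θ ≤ η :=
    ⟨min (q / 16) (η / 2), by positivity, by linarith [min_le_left (q / 16) (η / 2)],
      by linarith [min_le_right (q / 16) (η / 2)]⟩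
  refine ⟨ε / 2, by positivity, η, η0, ?_⟩
  have t1 := (Real.tendsto_exp_neg_atTop_nhds_zero.comp
    tendsto_natCast_atTop_atTop).eventually_le_const θ0
  filter_upwards [hC θ θ0, t1, ev_choose (C + 3), ev_ge (16 * (3 ^ 9 * c ^ 5) / θ ^ 4),
    ev_ge ((20 * k + 20) / a), ev_ge (2 * c), ev_ge (3 * k)] with n d1 d2 d3 d4 d5 d6 d7
  have n0 : (0 : ℝ) < n := by linarith
  have n0' : 0 < n := by exact_mod_cast n0
  rw [div_le_iff₀' a0] at d5
  rw [div_le_iff₀ ε0] at hJ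
  rw [div_le_iff₀ q0] at hM
  have d4' : 16 * (3 ^ 9 * c ^ 5) / n ≤ θ ^ 4 := by
    rw [div_le_iff₀' n0]; rwa [div_le_iff₀ (by positivity)] at d4
  push_cast at d3
  have nn : 0 < (n : ℝ) * n / 4 := by positivity
  have cn : c / n * (n * n / 4) = (C + 1) * n := by rw [hc]; field_simp
  have cn0 : 0 ≤ c / n := by positivity
  have Cn : 0 ≤ (C : ℝ) * n := by positivity
  have lt : ∀ T : ℕ, (T : ℝ) ≤ (C + 3) * n → T < n.choose 2 := fun T h => by
    exact_mod_cast (show (T : ℝ) < (n.choose 2 : ℕ) by linarith)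
  have all : ∀ T : ℕ, (T : ℝ) ≤ (C + 1) * n → All n T (c / n) := fun T h =>
    mu_all (lt T (by linarith)) (h.trans (cn.ge.trans
      (mul_le_mul_of_nonneg_left (by linarith) cn0)))
  have A1 := all (C * n) (by push_cast; linarith)
  have A2 := all (C * n + 3 * k) (by push_cast; linarith)
  have x1 := mul_le_mul_of_nonneg_right a21 n0.le
  have x2 := mul_le_mul_of_nonneg_right a22 n0.le
  have x3 := mul_le_mul_of_nonneg_right a13 n0.le
  have x4 := mul_le_mul_of_nonneg_right ε2 n0.le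
  have x5 := mul_le_mul_of_nonneg_right a11 n0.le
  have x6 := mul_le_mul_of_nonneg_right a12 n0.le
  have m1 : (⌊ε * n⌋₊ : ℝ) ≤ ε * n := Nat.floor_le (by positivity)
  have m2 := Nat.sub_one_lt_floor (ε * n)
  have w1 : (⌊2 * a * n⌋₊ : ℝ) ≤ 2 * a * n := Nat.floor_le (by positivity)
  have w2 := Nat.sub_one_lt_floor (2 * a * n)
  have v1 : (⌊a1 * n⌋₊ : ℝ) ≤ a1 * n := Nat.floor_le (by positivity)
  have v2 := Nat.sub_one_lt_floor (a1 * n)
  have r1 := Nat.le_ceil (ε / (4 * k) * n)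
  have r2 := Nat.ceil_lt_add_one (show 0 ≤ ε / (4 * k) * n by positivity)
  have s1 := Nat.le_ceil (a1 / 4 * n)
  have s2 := Nat.ceil_lt_add_one (show 0 ≤ a1 / 4 * n by positivity)
  generalize ⌊ε * n⌋₊ = m at *
  generalize ⌊2 * a * n⌋₊ = w at *
  generalize ⌊a1 * n⌋₊ = v at *
  generalize ⌈ε / (4 * k) * n⌉₊ = r at *
  generalize ⌈a1 / 4 * n⌉₊ = s at *
  have sp := spa_prob A2 c1 n0' ε1 θ0.le d4' m1
  have kr : (k : ℝ) * (v + r) ≤ ε * n / 2 + k :=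
    calc _ ≤ k * (ε / (4 * k) * n + (ε / (4 * k) * n + 1)) := by gcongr; linarith
      _ = _ := by field_simp; ring
  have fin := top_fin (n := n) (k := k) (m := m) (T := C * n) (M := M) (w := w) (w1 := v)
    (b1 := v + r) (b2 := 2 * w + s) (J := J) (a := a) (q := q / 2) (ρ := c) hk
    (by exact_mod_cast (show (k : ℝ) * (v + r) + 3 < m by linarith))
    (by have : v ≤ r := by exact_mod_cast (show (v : ℝ) ≤ r by linarith)
        omega)
    (by exact_mod_cast (show 2 * (w : ℝ) + (2 * w + s) < v by linarith))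
    (by exact_mod_cast (show 2 * ((w : ℝ) + 3 * k) + 3 ≤ m by linarith))
    (by exact_mod_cast (show (w : ℝ) ≤ n by linarith)) (lt n (by linarith)).le
    (lt _ (by push_cast; linarith)) c1 (by
      push_cast
      calc (C : ℝ) * n * n ≤ c * (n * n / 4) := by rw [hc]; nlinarith
        _ ≤ _ := by gcongr; linarith)
    (by
      have : 4 * ((C : ℝ) * n) ≤ (J + 1) * m :=
        calc _ = 8 * (C : ℝ) * (n / 2) := by ring
          _ ≤ J * ε * (n / 2) := by gcongr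
          _ = J * (ε * n / 2) := by ring
          _ ≤ _ := by gcongr <;> linarith
      exact_mod_cast this) a0.le (by positivity) (by linarith) (by linarith) fun X => by
      have i1 := iso_prob (T := C * n) (by linarith) d6 (lt _ (by push_cast; linarith)) (by
        push_cast
        exact le_trans (by linarith) (cn.ge.trans (mul_le_mul_of_nonneg_left (by linarith) cn0))) X
      have i2 := tv_prob A1 (by linarith) n0' M
      have i3 : (mu n).P (fun π => ¬ (Tv (proc π (C * n))).ncard ≤ M) ≤ q / 8 :=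
        le_of_mul_le_mul_left (by linarith) M0
      have i4 := (he1 n _ v r n0' A1 (by linarith) r1).trans d2
      have i5 := (he2 n _ (2 * w) s n0' A1 (by push_cast; linarith) s1).trans d2
      refine le_trans ?_ (sub_le_iff_le_add.2 ((hq.le.trans i1).trans ((P_le_add _ fun π h => ?_).trans
        (add_le_add le_rfl ((P_or_le _ _ _).trans (add_le_add d1 ((P_or_le _ _ _).trans
          (add_le_add sp ((P_or_le _ _ _).trans (add_le_add i3
            ((P_or_le _ _ _).trans (add_le_add i4 i5))))))))))))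
      · linarith
      · refine or_iff_not_imp_right.2 fun h' => ?_
        simp only [not_or, not_not] at h'
        exact ⟨h'.1, ⟨h'.2.1.mono (proc_mono π (by omega)), h'.2.2.2.1, h'.2.2.2.2, h'.2.2.1⟩, h⟩
  rw [← hK, ← div_le_iff₀' K0] at fin
  have f2 := fin.trans ((P_or_le _ _ _).trans (add_le_add le_rfl sp))
  rw [prob_eq]
  refine le_trans (by linarith : η ≤ (mu n).P (Viol k m)) (P_mono _ fun π ⟨τ, V, h1, h2, h3⟩ =>
    ⟨τ, V, h1, ?_, h3⟩)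
  have : (m : ℝ) ≤ (⋃ i, V i).ncard + 3 := by exact_mod_cast h2
  linarith

end

end Pool.Agent.Lib.MP_4b2155_pr.Q
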